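import Mathlib

/-!
# Definitions for the statement that the 2-sphere is not multiplicative
-/

namespace Pool.Agent.Helper5.Z2S

/-- The standard 2-sphere, the unit sphere of `ℝ³`. -/
abbrev Sphere2 : Type := Metric.sphere (0 : EuclideanSpace ℝ (Fin 3)) 1

/-- The antipodal involution `x ↦ -x` of the 2-sphere. -/
noncomputable def antipode (x : Sphere2) : Sphere2 := -x

/-- `ν` is a continuous involution of `X` without fixed points: `(X, ν)` is a `ℤ₂`-space. -/
def IsFreeInvolution {X : Type} [TopologicalSpace X] (ν : X → X) : Prop :=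
  Continuous ν ∧ (∀ x, ν (ν x) = x) ∧ ∀ x, ν x ≠ x

/-- There is a `ℤ₂`-map from `(X, μ)` to `(Z, ν)`: a continuous `f : X → Z` with
`f (μ x) = ν (f x)` for all `x`. -/
def MapsTo {X Z : Type} [TopologicalSpace X] [TopologicalSpace Z] (μ : X → X) (ν : Z → Z) : Prop :=
  ∃ f : X → Z, Continuous f ∧ ∀ x, f (μ x) = ν (f x)

end Pool.Agent.Helper5.Z2S
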