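import Pool.Agent.Helper5.Z2S.GMain

/-!
# Descent: the torus-equivariant map `(S³)³ → S³`
-/

namespace Pool.Agent.Helper5.Z2S

open unitInterval Metric Quaternion Pool.Agent.Helper90.Deg

theorem muf_mono (s θ : I) : muf 0 θ ≤ muf s θ ∧ muf s θ ≤ muf 1 θ := by
  have h0 := min_nonneg' θ
  have hpi := Real.pi_pos
  have h1 := s.2.1
  have h2 := s.2.2
  unfold muf
  constructor
  · simp only [Set.Icc.coe_zero, zero_mul, add_zero]
    have := mul_nonneg h1 h0
    nlinarith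
  · simp only [Set.Icc.coe_one, one_mul]
    have : s * min (θ : ℝ) (1 - θ) ≤ min (θ : ℝ) (1 - θ) := mul_le_of_le_one_left h0 h2
    nlinarith

theorem muf_at_zero (s : I) : muf s 0 = 0 ∧ laf s 0 = 0 := by
  have h1 : muf s 0 = 0 := by
    unfold muf
    simp
  refine ⟨h1, ?_⟩
  unfold laf
  rw [h1]; simp

theorem muf_at_one (s : I) : muf s 1 = Real.pi / 2 ∧ laf s 1 = Real.pi / 2 := by
  have h1 : muf s 1 = Real.pi / 2 := by
    unfold muf
    simp only [Set.Icc.coe_one, sub_self]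
    rw [max_eq_right (by norm_num), min_eq_right (by norm_num)]
    ring
  refine ⟨h1, ?_⟩
  unfold laf
  rw [h1]; simp only [Set.Icc.coe_one]; ring

section fill

variable {H : C(I × I, Mo)} (H0 : ∀ θ, H (0, θ) = Ga1.map (pathA θ))
  (H1 : ∀ θ, H (1, θ) = Ga2.map (pathB θ)) (Hs0 : ∀ s, H (s, 0) = Ga1.map (0, 0))
  (Hs1 : ∀ s, H (s, 1) = Ga1.map (Real.pi / 2, Real.pi / 2))

include H0 Hs0 Hs1 in
theorem fill_eq1 (s θ : I) (h : muf s θ = muf 0 θ) : H (s, θ) = Ga1.map (muf s θ, laf s θ) := by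
  have h2 : laf s θ = laf 0 θ := by unfold laf; rw [h]
  rcases (sq_inj h h2).2 with h3 | h3 | h3
  · rw [h3, H0, pathA_eq]
  · rw [h3, Hs0, (muf_at_zero s).1, (muf_at_zero s).2]
  · rw [h3, Hs1, (muf_at_one s).1, (muf_at_one s).2]

include H1 Hs0 Hs1 in
theorem fill_eq2 (s θ : I) (h : muf s θ = muf 1 θ) : H (s, θ) = Ga2.map (muf s θ, laf s θ) := by
  have h2 : laf s θ = laf 1 θ := by unfold laf; rw [h]
  rcases (sq_inj h h2).2 with h3 | h3 | h3
  · rw [h3, H1, pathB_eq]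
  · rw [h3, Hs0, (muf_at_zero s).1, (muf_at_zero s).2]
    apply Mo.ext; intro W
    exact Ga_zero _
  · rw [h3, Hs1, (muf_at_one s).1, (muf_at_one s).2]
    apply Mo.ext; intro W
    exact Ga_half _

theorem m1_sq : (-1 : S1) ^ 2 = 1 := by
  apply Subtype.ext
  rw [Metric.unitSphere.coe_pow]
  simp

theorem m1_cube : (-1 : S1) ^ 3 = -1 := by
  apply Subtype.ext
  rw [Metric.unitSphere.coe_pow]
  simp
  norm_num

theorem m1_six : (-1 : S1) ^ 6 = 1 := by
  have : (-1 : S1) ^ 6 = ((-1) ^ 2) ^ 3 := by rw [← pow_mul]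
  rw [this, m1_sq, one_pow]

theorem m1_inv : (-1 : S1)⁻¹ = -1 := by
  rw [inv_eq_iff_mul_eq_one, ← pow_two, m1_sq]

theorem S3_mul_m1 (W : S3) : W * (-1) = -W := by
  apply Subtype.ext
  simp

theorem S3_m1_mul (W : S3) : (-1) * W = -W := by
  apply Subtype.ext
  simp

theorem Mo.neg (M : Mo) (W : S3) : M.1 (-W) = -M.1 W := M.2.2 W

theorem cS_neg_one : cS (-1) = -1 := by
  apply co_inj
  rw [co_cS, co_neg]
  show _ = -toC ((1 : S3) : ℍ[ℝ])
  have h1 : toC ((1 : S3) : ℍ[ℝ]) = (1, 0) := toC_one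
  rw [h1]
  ext <;> simp

theorem S1_sq {x : S1} (h : x = x⁻¹) : x = 1 ∨ x = -1 := by
  have h1 : x * x = 1 := by nth_rewrite 2 [h]; exact mul_inv_cancel x
  have h2 : (x : ℂ) * (x : ℂ) = 1 := by
    rw [← Metric.unitSphere.coe_mul, h1]; rfl
  rcases mul_self_eq_one_iff.mp h2 with h3 | h3
  · left; exact Subtype.ext h3
  · right; exact Subtype.ext h3

/-- the filling homotopy satisfies the stabiliser condition in the first variable -/
theorem condA_of {M : Mo} {m l : ℝ} (hm0 : 0 ≤ m) (hm1 : m ≤ Real.pi / 2)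
    (h0 : m = 0 → M = Ga1.map (m, l)) (h1 : m = Real.pi / 2 → M = Ga2.map (m, l))
    (x ξ : S1) (hc : Real.cos m ≠ 0 → ξ = x) (hs : Real.sin m ≠ 0 → ξ = x⁻¹) (W : S3) :
    M.1 (cS (x ^ 2)⁻¹ * W * cS ξ) = act (x ^ 3) (ξ ^ 6)⁻¹ (M.1 W) := by
  by_cases hs0 : Real.sin m = 0
  · have hm : m = 0 := by
      by_contra hne
      have : 0 < Real.sin m := Real.sin_pos_of_pos_of_lt_pi (lt_of_le_of_ne hm0 (Ne.symm hne))
        (by linarith [Real.pi_pos])
      exact this.ne' hs0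
    have hx : ξ = x := hc (by rw [hm, Real.cos_zero]; exact one_ne_zero)
    rw [h0 hm, hx, hm, Fam.map_val, Fam.map_val, co_act, eqv_A0]
  · by_cases hc0 : Real.cos m = 0
    · have hm : m = Real.pi / 2 := by
        by_contra hne
        have : 0 < Real.cos m := Real.cos_pos_of_mem_Ioo ⟨by linarith [Real.pi_pos],
          lt_of_le_of_ne hm1 hne⟩
        exact this.ne' hc0
      have hx : ξ = x⁻¹ := hs hs0
      rw [h1 hm, hx, hm, Fam.map_val, Fam.map_val, co_act, eqv_A1]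
      congr 1
      group
    · have e1 := hc hc0
      have e2 := hs hs0
      rw [e1] at e2
      rw [e1]
      rcases S1_sq e2 with h3 | h3
      · rw [h3]
        simp only [one_pow, inv_one, cS_one, one_mul, mul_one, act_one]
      · rw [h3]
        rw [m1_sq, m1_cube, m1_six, inv_one, cS_one, cS_neg_one, one_mul, S3_mul_m1, M.neg]
        ext <;> simp [act, tws, tw]

/-- the filling homotopy satisfies the stabiliser condition in the second variable -/
theorem condB_of {M : Mo} {m l : ℝ} (hl0 : 0 ≤ l) (hl1 : l ≤ Real.pi / 2)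
    (h0 : l = 0 → M = Ga2.map (m, l)) (h1 : l = Real.pi / 2 → M = Ga1.map (m, l))
    (y υ : S1) (hc : Real.cos l ≠ 0 → υ = y) (hs : Real.sin l ≠ 0 → υ = y⁻¹) (W : S3) :
    M.1 (cS y⁻¹ * W * cS (υ ^ 2)⁻¹) = act (y ^ 6)⁻¹ (υ ^ 3)⁻¹ (M.1 W) := by
  by_cases hs0 : Real.sin l = 0
  · have hm : l = 0 := by
      by_contra hne
      have : 0 < Real.sin l := Real.sin_pos_of_pos_of_lt_pi (lt_of_le_of_ne hl0 (Ne.symm hne))
        (by linarith [Real.pi_pos])
      exact this.ne' hs0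
    have hx : υ = y := hc (by rw [hm, Real.cos_zero]; exact one_ne_zero)
    rw [h0 hm, hx, hm, Fam.map_val, Fam.map_val, co_act, eqv_B0]
  · by_cases hc0 : Real.cos l = 0
    · have hm : l = Real.pi / 2 := by
        by_contra hne
        have : 0 < Real.cos l := Real.cos_pos_of_mem_Ioo ⟨by linarith [Real.pi_pos],
          lt_of_le_of_ne hl1 hne⟩
        exact this.ne' hc0
      have hx : υ = y⁻¹ := hs hs0
      have e1 : ((y⁻¹) ^ 2)⁻¹ = y ^ 2 := by group
      have e2 : ((y⁻¹) ^ 3)⁻¹ = y ^ 3 := by group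
      rw [h1 hm, hx, hm, Fam.map_val, Fam.map_val, co_act, e1, e2, eqv_B1]
    · have e1 := hc hc0
      have e2 := hs hs0
      rw [e1] at e2
      rw [e1]
      rcases S1_sq e2 with h3 | h3
      · rw [h3]
        simp only [one_pow, inv_one, cS_one, one_mul, mul_one, act_one]
      · rw [h3]
        rw [m1_sq, m1_cube, m1_six, m1_inv, inv_one, cS_one, cS_neg_one, mul_one, S3_m1_mul, M.neg]
        ext <;> simp [act, tws, tw, m1_inv]

include H0 H1 Hs0 Hs1 in
theorem fill_condA (s θ : I) (x ξ : S1) (hc : Real.cos (muf s θ) ≠ 0 → ξ = x)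
    (hs : Real.sin (muf s θ) ≠ 0 → ξ = x⁻¹) (W : S3) :
    (H (s, θ)).1 (cS (x ^ 2)⁻¹ * W * cS ξ) = act (x ^ 3) (ξ ^ 6)⁻¹ ((H (s, θ)).1 W) := by
  refine condA_of (l := laf s θ) (muf_nonneg s θ) (muf_le s θ) ?_ ?_ x ξ hc hs W
  · intro h
    apply fill_eq1 H0 Hs0 Hs1
    have h1 := (muf_mono s θ).1
    have h2 := muf_nonneg 0 θ
    linarith
  · intro h
    apply fill_eq2 H1 Hs0 Hs1
    have h1 := (muf_mono s θ).2
    have h2 := muf_le 1 θ
    linarith

include H0 H1 Hs0 Hs1 in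
theorem fill_condB (s θ : I) (y υ : S1) (hc : Real.cos (laf s θ) ≠ 0 → υ = y)
    (hs : Real.sin (laf s θ) ≠ 0 → υ = y⁻¹) (W : S3) :
    (H (s, θ)).1 (cS y⁻¹ * W * cS (υ ^ 2)⁻¹) = act (y ^ 6)⁻¹ (υ ^ 3)⁻¹ ((H (s, θ)).1 W) := by
  refine condB_of (m := muf s θ) (laf_nonneg s θ) (laf_le s θ) ?_ ?_ y υ hc hs W
  · intro h
    apply fill_eq2 H1 Hs0 Hs1
    have h1 := (muf_mono s θ).2
    have h2 := laf_nonneg 1 θ
    unfold laf at h h2
    linarith
  · intro h
    apply fill_eq1 H0 Hs0 Hs1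
    have h1 := (muf_mono s θ).1
    have h2 := laf_le 0 θ
    unfold laf at h h2
    linarith

end fill

end Pool.Agent.Helper5.Z2S
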