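import Pool.Agent.Helper5.Z2S.GHtpy

/-!
# Equivariance of the edge maps under the stabiliser circles
-/

namespace Pool.Agent.Helper5.Z2S

open unitInterval Metric Quaternion Pool.Agent.Helper90.Deg

/-- diagonal action of two unit complex numbers -/
noncomputable def tws (c d : S1) (v : V) : V := tw (c : ℂ) (d : ℂ) v

/-- left and right multiplication by unit complex numbers -/
noncomputable def act (z w : S1) (v : V) : V := tws (z * w) (z * w⁻¹) v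

theorem conj_S1 (c : S1) : (starRingEnd ℂ) (c : ℂ) = ((c⁻¹ : S1) : ℂ) := by
  rw [Metric.unitSphere.coe_inv, Complex.inv_def, Complex.normSq_eq_norm_sq,
    mem_sphere_zero_iff_norm.mp c.2]
  simp

theorem S1_ne (c : S1) : (c : ℂ) ≠ 0 := by
  rw [← norm_ne_zero_iff, mem_sphere_zero_iff_norm.mp c.2]; exact one_ne_zero

theorem tws_tws (c d c' d' : S1) (v : V) : tws c d (tws c' d' v) = tws (c * c') (d * d') v := by
  ext <;> simp [tws, tw, mul_assoc]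

theorem act_act (z w z' w' : S1) (v : V) : act z w (act z' w' v) = act (z * z') (w' * w) v := by
  rw [act, act, tws_tws, act]
  congr 1
  · exact mul_mul_mul_comm z w z' w' |>.trans (by rw [mul_comm w w'])
  · rw [mul_mul_mul_comm, mul_inv, mul_comm w'⁻¹]

theorem act_one (v : V) : act 1 1 v = v := by
  ext <;> simp [act, tws, tw]

theorem fE_tws (c d : S1) (v : V) : fE (tws c d v) = tws (c ^ 3) d (fE v) := by
  ext <;> simp [tws, tw, fE, mul_pow]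

theorem fO_tws (c d : S1) (v : V) : fO (tws c d v) = tws c (d ^ 3) (fO v) := by
  ext <;> simp [tws, tw, fO, mul_pow]

theorem fC_tws (c d : S1) (v : V) : fC (tws c d v) = tws c d⁻¹ (fC v) := by
  ext
  · simp [tws, tw, fC]
  · simp only [tws, tw, fC, map_mul, conj_S1]

theorem rj_tws (t : ℝ) (c : S1) (v : V) : rj t (tws c c v) = tws c c (rj t v) := by
  ext <;> simp only [tws, tw, rj] <;> ring

theorem lj_tws (t : ℝ) (c : S1) (v : V) : lj t (tws c c⁻¹ v) = tws c c⁻¹ (lj t v) := by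
  ext
  · simp only [tws, tw, lj, map_mul, conj_S1, inv_inv]; ring
  · simp only [tws, tw, lj, map_mul, conj_S1]; ring

theorem rj_half_tws (c : S1) (v : V) :
    rj (-(Real.pi / 2)) (tws c c⁻¹ v) = tws c⁻¹ c (rj (-(Real.pi / 2)) v) := by
  ext <;> simp [tws, tw, rj]

theorem lj_half_tws (c : S1) (v : V) :
    lj (Real.pi / 2) (tws c c v) = tws c⁻¹ c⁻¹ (lj (Real.pi / 2) v) := by
  ext
  · simp only [tws, tw, lj, map_mul, conj_S1, Real.cos_pi_div_two, Real.sin_pi_div_two]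
    simp
  · simp only [tws, tw, lj, map_mul, conj_S1, Real.cos_pi_div_two, Real.sin_pi_div_two]
    simp

/-- edge `μ = 0` -/
theorem eqv_A0 (x : S1) (l : ℝ) (v : V) :
    Ga1.m (0, l) (act (x ^ 2)⁻¹ x v) = act (x ^ 3) (x ^ 6)⁻¹ (Ga1.m (0, l) v) := by
  simp only [Ga1, act]
  have e1 : (x ^ 2)⁻¹ * x = x⁻¹ := by group
  have e2 : (x ^ 2)⁻¹ * x⁻¹ = (x⁻¹) ^ 3 := by group
  rw [e1, e2, fE_tws, rj_tws, lj_zero, lj_zero, fO_tws, fC_tws]
  congr 1 <;> group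

/-- edge `λ = π/2` -/
theorem eqv_B1 (y : S1) (m : ℝ) (v : V) :
    Ga1.m (m, Real.pi / 2) (act y⁻¹ (y ^ 2) v) = act (y ^ 6)⁻¹ (y ^ 3) (Ga1.m (m, Real.pi / 2) v) := by
  simp only [Ga1, act]
  have e1 : y⁻¹ * y ^ 2 = y := by group
  have e2 : y⁻¹ * (y ^ 2)⁻¹ = (y ^ 3)⁻¹ := by group
  have e3 : tws (y ^ 3)⁻¹ (y ^ 3) = tws (y ^ 3)⁻¹ ((y ^ 3)⁻¹)⁻¹ := by rw [inv_inv]
  rw [e1, e2, fE_tws, rj_half_tws, e3, lj_tws, fO_tws, fC_tws]
  congr 1 <;> group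

/-- edge `λ = 0` -/
theorem eqv_B0 (y : S1) (m : ℝ) (v : V) :
    Ga2.m (m, 0) (act y⁻¹ (y ^ 2)⁻¹ v) = act (y ^ 6)⁻¹ (y ^ 3)⁻¹ (Ga2.m (m, 0) v) := by
  simp only [Ga2, act]
  have e1 : y⁻¹ * (y ^ 2)⁻¹ = (y ^ 3)⁻¹ := by group
  have e2 : y⁻¹ * ((y ^ 2)⁻¹)⁻¹ = y := by group
  have e3 : tws (y ^ 3)⁻¹ (y ^ 3) = tws (y ^ 3)⁻¹ ((y ^ 3)⁻¹)⁻¹ := by rw [inv_inv]
  rw [e1, e2, fO_tws, neg_zero, rj_zero, rj_zero, e3, lj_tws, fE_tws, fC_tws]
  congr 1 <;> group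

/-- edge `μ = π/2` -/
theorem eqv_A1 (x : S1) (l : ℝ) (v : V) :
    Ga2.m (Real.pi / 2, l) (act (x ^ 2)⁻¹ x⁻¹ v) = act (x ^ 3) (x ^ 6) (Ga2.m (Real.pi / 2, l) v) := by
  simp only [Ga2, act]
  have e1 : (x ^ 2)⁻¹ * x⁻¹ = (x ^ 3)⁻¹ := by group
  have e2 : (x ^ 2)⁻¹ * (x⁻¹)⁻¹ = x⁻¹ := by group
  have e3 : (x⁻¹) ^ 3 = (x ^ 3)⁻¹ := by group
  rw [e1, e2, fO_tws, e3, rj_tws, lj_half_tws, fE_tws, fC_tws]
  congr 1 <;> group

end Pool.Agent.Helper5.Z2S
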