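import Mathlib

/-!
# Polynomial families of odd maps `ℂ² → ℂ²` used in the construction of the map `G`

`V = ℂ × ℂ` is identified with the quaternions, `(a,b) = a + b j`.
-/

namespace Pool.Agent.Helper5.Z2S

open Complex

/-- pairs of complex numbers, the quaternion `a + b j` -/
abbrev V : Type := ℂ × ℂ

/-- diagonal map -/
noncomputable def tw (c d : ℂ) (v : V) : V := (c * v.1, d * v.2)
/-- `(a,b) ↦ (a³,b)` -/
noncomputable def fE (v : V) : V := (v.1 ^ 3, v.2)
/-- `(a,b) ↦ (a,b³)` -/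
noncomputable def fO (v : V) : V := (v.1, v.2 ^ 3)
/-- `(a,b) ↦ (a, conj b)` -/
noncomputable def fC (v : V) : V := (v.1, (starRingEnd ℂ) v.2)
/-- conjugation of both coordinates -/
noncomputable def cc (v : V) : V := ((starRingEnd ℂ) v.1, (starRingEnd ℂ) v.2)
/-- left multiplication by `cos t + j sin t` -/
noncomputable def lj (t : ℝ) (v : V) : V :=
  ((Real.cos t : ℂ) * v.1 - (Real.sin t : ℂ) * (starRingEnd ℂ) v.2,
    (Real.cos t : ℂ) * v.2 + (Real.sin t : ℂ) * (starRingEnd ℂ) v.1)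
/-- right multiplication by `cos t + j sin t` -/
noncomputable def rj (t : ℝ) (v : V) : V :=
  ((Real.cos t : ℂ) * v.1 - (Real.sin t : ℂ) * v.2, (Real.sin t : ℂ) * v.1 + (Real.cos t : ℂ) * v.2)
/-- right multiplication by the quaternion `p + q j` -/
noncomputable def rq (p q : ℂ) (v : V) : V :=
  (v.1 * p - v.2 * (starRingEnd ℂ) q, v.1 * q + v.2 * (starRingEnd ℂ) p)

/-- the cubic family -/
noncomputable def fk (κ : ℂ) (v : V) : V :=
  (v.1 * ((κ + 1) * v.1 ^ 2 + (κ - 3) * v.2 ^ 2) / 4, v.2 * ((κ + 1) * v.2 ^ 2 + (κ - 3) * v.1 ^ 2) / 4)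

/-- the path of parameters from `3` to `0` avoiding `±1` -/
noncomputable def kap (r : ℝ) : ℂ := 3 - 3 * r + I * (r * (1 - r))

/-! ### continuity -/

theorem continuous_lj {X : Type*} [TopologicalSpace X] {t : X → ℝ} {v : X → V}
    (ht : Continuous t) (hv : Continuous v) : Continuous fun x => lj (t x) (v x) := by
  unfold lj; fun_prop

theorem continuous_rj {X : Type*} [TopologicalSpace X] {t : X → ℝ} {v : X → V}
    (ht : Continuous t) (hv : Continuous v) : Continuous fun x => rj (t x) (v x) := by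
  unfold rj; fun_prop

theorem continuous_rq {X : Type*} [TopologicalSpace X] {p q : X → ℂ} {v : X → V}
    (hp : Continuous p) (hq : Continuous q) (hv : Continuous v) :
    Continuous fun x => rq (p x) (q x) (v x) := by
  unfold rq; fun_prop

theorem continuous_tw {X : Type*} [TopologicalSpace X] {p q : X → ℂ} {v : X → V}
    (hp : Continuous p) (hq : Continuous q) (hv : Continuous v) :
    Continuous fun x => tw (p x) (q x) (v x) := by
  unfold tw; fun_prop

theorem continuous_fE : Continuous fE := by unfold fE; fun_prop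
theorem continuous_fO : Continuous fO := by unfold fO; fun_prop
theorem continuous_fC : Continuous fC := by unfold fC; fun_prop
theorem continuous_cc : Continuous cc := by unfold cc; fun_prop

theorem continuous_fk {X : Type*} [TopologicalSpace X] {k : X → ℂ} {v : X → V}
    (hk : Continuous k) (hv : Continuous v) : Continuous fun x => fk (k x) (v x) := by
  unfold fk; fun_prop

theorem continuous_kap : Continuous kap := by unfold kap; fun_prop

/-! ### oddness -/

theorem fE_neg (v : V) : fE (-v) = -fE v := by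
  ext <;> simp only [fE, Prod.fst_neg, Prod.snd_neg]; ring
theorem fO_neg (v : V) : fO (-v) = -fO v := by
  ext <;> simp only [fO, Prod.fst_neg, Prod.snd_neg]; ring
theorem fC_neg (v : V) : fC (-v) = -fC v := by
  ext <;> simp [fC]
theorem cc_neg (v : V) : cc (-v) = -cc v := by
  ext <;> simp [cc]
theorem lj_neg (t : ℝ) (v : V) : lj t (-v) = -lj t v := by
  ext <;> simp only [lj, Prod.fst_neg, Prod.snd_neg, map_neg] <;> ring
theorem rj_neg (t : ℝ) (v : V) : rj t (-v) = -rj t v := by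
  ext <;> simp only [rj, Prod.fst_neg, Prod.snd_neg] <;> ring
theorem rq_neg (p q : ℂ) (v : V) : rq p q (-v) = -rq p q v := by
  ext <;> simp only [rq, Prod.fst_neg, Prod.snd_neg] <;> ring
theorem fk_neg (k : ℂ) (v : V) : fk k (-v) = -fk k v := by
  ext <;> simp only [fk, Prod.fst_neg, Prod.snd_neg] <;> ring

/-! ### nonvanishing -/

theorem fE_ne {v : V} (h : v ≠ 0) : fE v ≠ 0 := by
  intro h0
  apply h
  rw [fE, Prod.mk_eq_zero] at h0
  exact Prod.ext (pow_eq_zero_iff (by norm_num) |>.mp h0.1) h0.2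

theorem fO_ne {v : V} (h : v ≠ 0) : fO v ≠ 0 := by
  intro h0
  apply h
  rw [fO, Prod.mk_eq_zero] at h0
  exact Prod.ext h0.1 (pow_eq_zero_iff (by norm_num) |>.mp h0.2)

theorem fC_ne {v : V} (h : v ≠ 0) : fC v ≠ 0 := by
  intro h0
  apply h
  rw [fC, Prod.mk_eq_zero] at h0
  exact Prod.ext h0.1 ((map_eq_zero _).mp h0.2)

theorem cc_ne {v : V} (h : v ≠ 0) : cc v ≠ 0 := by
  intro h0
  apply h
  rw [cc, Prod.mk_eq_zero] at h0
  exact Prod.ext ((map_eq_zero _).mp h0.1) ((map_eq_zero _).mp h0.2)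

theorem cs_one (t : ℝ) : (Real.cos t : ℂ) * Real.cos t + (Real.sin t : ℂ) * Real.sin t = 1 := by
  rw [← ofReal_mul, ← ofReal_mul, ← ofReal_add, ← pow_two, ← pow_two, Real.cos_sq_add_sin_sq, ofReal_one]

theorem rj_rj (s t : ℝ) (v : V) : rj s (rj t v) = rj (s + t) v := by
  ext <;> simp only [rj, Real.cos_add, Real.sin_add, ofReal_add, ofReal_sub, ofReal_mul] <;> ring

theorem lj_lj (s t : ℝ) (v : V) : lj s (lj t v) = lj (s + t) v := by
  ext <;> simp only [lj, Real.cos_add, Real.sin_add, ofReal_add, ofReal_sub, ofReal_mul, map_add,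
    map_sub, map_mul, conj_ofReal, conj_conj] <;> ring

theorem rj_zero (v : V) : rj 0 v = v := by
  ext <;> simp [rj]

theorem lj_zero (v : V) : lj 0 v = v := by
  ext <;> simp [lj]

theorem rj_zero' (t : ℝ) : rj t 0 = 0 := by
  ext <;> simp [rj]

theorem lj_zero' (t : ℝ) : lj t 0 = 0 := by
  ext <;> simp [lj]

theorem rj_ne (t : ℝ) {v : V} (h : v ≠ 0) : rj t v ≠ 0 := by
  intro h0
  apply h
  have := congrArg (rj (-t)) h0
  rwa [rj_rj, neg_add_cancel, rj_zero, rj_zero'] at this

theorem lj_ne (t : ℝ) {v : V} (h : v ≠ 0) : lj t v ≠ 0 := by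
  intro h0
  apply h
  have := congrArg (lj (-t)) h0
  rwa [lj_lj, neg_add_cancel, lj_zero, lj_zero'] at this

theorem rq_rq (p q p' q' : ℂ) (v : V) : rq p' q' (rq p q v) =
    rq (p * p' - q * (starRingEnd ℂ) q') (p * q' + q * (starRingEnd ℂ) p') v := by
  ext <;> simp only [rq, map_add, map_sub, map_mul, conj_conj] <;> ring

theorem rq_one (v : V) : rq 1 0 v = v := by
  ext <;> simp [rq]

theorem rq_ne {p q : ℂ} (hpq : normSq p + normSq q = 1) {v : V} (h : v ≠ 0) : rq p q v ≠ 0 := by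
  intro h0
  apply h
  have h1 := congrArg (rq ((starRingEnd ℂ) p) (-q)) h0
  have h2 : rq ((starRingEnd ℂ) p) (-q) 0 = 0 := by ext <;> simp [rq]
  rw [rq_rq, h2] at h1
  have e1 : p * (starRingEnd ℂ) p - q * (starRingEnd ℂ) (-q) = 1 := by
    rw [map_neg, mul_neg, sub_neg_eq_add, mul_conj, mul_conj, ← ofReal_add, hpq, ofReal_one]
  have e2 : p * -q + q * (starRingEnd ℂ) ((starRingEnd ℂ) p) = 0 := by
    rw [conj_conj]; ring
  rwa [e1, e2, rq_one] at h1

theorem fk_ne {k : ℂ} (h1 : k ≠ 1) (h2 : k ≠ -1) {v : V} (h : v ≠ 0) : fk k v ≠ 0 := by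
  intro h0
  apply h
  rw [fk, Prod.mk_eq_zero] at h0
  obtain ⟨ha, hb⟩ := h0
  have ha' : v.1 * ((k + 1) * v.1 ^ 2 + (k - 3) * v.2 ^ 2) = 0 := by
    linear_combination 4 * ha
  have hb' : v.2 * ((k + 1) * v.2 ^ 2 + (k - 3) * v.1 ^ 2) = 0 := by
    linear_combination 4 * hb
  have hk1 : k + 1 ≠ 0 := fun h3 => h2 (eq_neg_of_add_eq_zero_left h3)
  by_cases hv1 : v.1 = 0
  · rw [hv1] at hb'
    have : (k + 1) * v.2 ^ 3 = 0 := by linear_combination hb'
    rcases mul_eq_zero.mp this with h3 | h3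
    · exact absurd h3 hk1
    · exact Prod.ext hv1 (pow_eq_zero_iff (by norm_num) |>.mp h3)
  · by_cases hv2 : v.2 = 0
    · rw [hv2] at ha'
      have : (k + 1) * v.1 ^ 3 = 0 := by linear_combination ha'
      rcases mul_eq_zero.mp this with h3 | h3
      · exact absurd h3 hk1
      · exact absurd (pow_eq_zero_iff (by norm_num) |>.mp h3) hv1
    · exfalso
      have e1 := (mul_eq_zero.mp ha').resolve_left hv1
      have e2 := (mul_eq_zero.mp hb').resolve_left hv2
      -- (k+1) a² = -(k-3) b², (k+1) b² = -(k-3) a²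
      have e3 : (k + 1) * ((k + 1) * v.1 ^ 2 + (k - 3) * v.2 ^ 2) -
          (k - 3) * ((k + 1) * v.2 ^ 2 + (k - 3) * v.1 ^ 2) = 0 := by rw [e1, e2]; ring
      have e4 : (8 * (k - 1)) * v.1 ^ 2 = 0 := by linear_combination e3
      rcases mul_eq_zero.mp e4 with h3 | h3
      · rcases mul_eq_zero.mp h3 with h4 | h4
        · norm_num at h4
        · exact h1 (sub_eq_zero.mp h4)
      · exact hv1 (pow_eq_zero_iff (by norm_num) |>.mp h3)

theorem kap_zero : kap 0 = 3 := by simp [kap]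
theorem kap_one : kap 1 = 0 := by simp [kap]

theorem kap_ne_one (r : ℝ) : kap r ≠ 1 := by
  intro h
  have hi := congrArg Complex.im h
  have hr := congrArg Complex.re h
  simp [kap] at hi hr
  rcases hi with h0 | h0
  · rw [h0] at hr; norm_num at hr
  · have : r = 1 := by linarith
    rw [this] at hr; norm_num at hr

theorem kap_ne_neg_one (r : ℝ) : kap r ≠ -1 := by
  intro h
  have hi := congrArg Complex.im h
  have hr := congrArg Complex.re h
  simp [kap] at hi hr
  rcases hi with h0 | h0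
  · rw [h0] at hr; norm_num at hr
  · have : r = 1 := by linarith
    rw [this] at hr; norm_num at hr

/-! ### identities -/

theorem rj_lj (s t : ℝ) (v : V) : rj s (lj t v) = lj t (rj s v) := by
  ext <;> simp only [lj, rj, map_add, map_sub, map_mul, conj_ofReal] <;> ring

/-- `O = S E S⁻¹` -/
theorem fO_eq (v : V) : rj (Real.pi / 2) (fE (rj (-(Real.pi / 2)) v)) = fO v := by
  ext <;> simp [rj, fE, fO]

theorem fO_eq' (v : V) : rj (-(Real.pi / 2)) (fE (rj (Real.pi / 2) v)) = fO v := by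
  ext <;> simp [rj, fE, fO]; ring

/-- `S E S⁻¹ E = (a³,b³)` -/
theorem fk_three (v : V) : rj (Real.pi / 2) (fE (rj (-(Real.pi / 2)) (fE v))) = fk 3 v := by
  rw [fO_eq]
  ext <;> simp only [fE, fO, fk] <;> ring

/-- conjugation by `j` -/
theorem lj_rj_half (v : V) : lj (Real.pi / 2) (rj (-(Real.pi / 2)) v) = cc v := by
  ext <;> simp [rj, lj, cc]

theorem fE_cc (v : V) : fE (cc v) = cc (fE v) := by
  ext <;> simp [fE, cc]
theorem fO_cc (v : V) : fO (cc v) = cc (fO v) := by
  ext <;> simp [fO, cc]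
theorem rj_cc (t : ℝ) (v : V) : rj t (cc v) = cc (rj t v) := by
  ext <;> simp only [rj, cc, map_add, map_sub, map_mul, conj_ofReal]

/-- rotation of the harmonic cubic -/
theorem fk_zero_rj (t : ℝ) (v : V) : fk 0 (rj t v) = rj (-(3 * t)) (fk 0 v) := by
  have hc : (Real.cos (3 * t) : ℂ) = 4 * (Real.cos t : ℂ) ^ 3 - 3 * (Real.cos t : ℂ) := by
    rw [Real.cos_three_mul]; push_cast; ring
  have hs : (Real.sin (3 * t) : ℂ) = 3 * (Real.sin t : ℂ) - 4 * (Real.sin t : ℂ) ^ 3 := by
    rw [Real.sin_three_mul]; push_cast; ring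
  have h1 := cs_one t
  simp only [rj, fk, Real.cos_neg, Real.sin_neg, ofReal_neg, hc, hs]
  generalize (Real.cos t : ℂ) = c at *
  generalize (Real.sin t : ℂ) = s at *
  have h2 : s ^ 2 = 1 - c ^ 2 := by linear_combination h1
  have h3 : s ^ 3 = s * (1 - c ^ 2) := by rw [pow_succ, h2]; ring
  ext
  · simp only
    rw [h3]
    ring_nf
    rw [h3, h2]
    ring
  · simp only
    rw [h3]
    ring_nf
    rw [h3, h2]
    ring

end Pool.Agent.Helper5.Z2S
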