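import Pool.Agent.Helper5.Z2S.GDesc

/-!
# The torus-equivariant map `(S³)³ → S³`: end of the construction
-/

namespace Pool.Agent.Helper5.Z2S

open unitInterval Metric Quaternion Pool.Agent.Helper90.Deg

theorem norm_S1 (c : S1) : ‖(c : ℂ)‖ = 1 := mem_sphere_zero_iff_norm.mp c.2

theorem ej_inj {m m' : ℝ} (h0 : 0 ≤ m) (h1 : m ≤ Real.pi / 2) (h0' : 0 ≤ m')
    (h1' : m' ≤ Real.pi / 2) {x ξ x' ξ' : S1}
    (h : cS x⁻¹ * ejS m * cS ξ = cS x'⁻¹ * ejS m' * cS ξ') :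
    m = m' ∧ (Real.cos m ≠ 0 → ξ * ξ'⁻¹ = x * x'⁻¹) ∧
      (Real.sin m ≠ 0 → ξ * ξ'⁻¹ = (x * x'⁻¹)⁻¹) := by
  have h2 := congrArg co h
  rw [co_act, co_act, co_ejS, co_ejS] at h2
  simp only [act, tws, tw, Prod.mk.injEq] at h2
  obtain ⟨h3, h4⟩ := h2
  have e1 : Real.cos m = Real.cos m' := by
    have := congrArg (fun z : ℂ => ‖z‖) h3
    simp only [norm_mul, norm_S1, one_mul, Complex.norm_real, Real.norm_eq_abs] at this
    rwa [abs_of_nonneg (Real.cos_nonneg_of_mem_Icc ⟨by linarith [Real.pi_pos], h1⟩),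
      abs_of_nonneg (Real.cos_nonneg_of_mem_Icc ⟨by linarith [Real.pi_pos], h1'⟩)] at this
  have e2 : m = m' := Real.injOn_cos ⟨h0, by linarith [Real.pi_pos]⟩
    ⟨h0', by linarith [Real.pi_pos]⟩ e1
  subst e2
  refine ⟨rfl, ?_, ?_⟩
  · intro hc
    have hc' : (Real.cos m : ℂ) ≠ 0 := by exact_mod_cast hc
    have h5 : x⁻¹ * ξ = x'⁻¹ * ξ' := Subtype.ext (mul_right_cancel₀ hc' h3)
    have h6 : ξ = x * (x'⁻¹ * ξ') := by rw [← h5, mul_inv_cancel_left]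
    rw [h6]; simp [mul_assoc]
  · intro hc
    have hc' : (Real.sin m : ℂ) ≠ 0 := by exact_mod_cast hc
    have h5 : x⁻¹ * ξ⁻¹ = x'⁻¹ * ξ'⁻¹ := Subtype.ext (mul_right_cancel₀ hc' h4)
    have h6 : ξ⁻¹ = x * (x'⁻¹ * ξ'⁻¹) := by rw [← h5, mul_inv_cancel_left]
    have h7 : ξ = (x * (x'⁻¹ * ξ'⁻¹))⁻¹ := by rw [← h6, inv_inv]
    rw [h7, mul_inv, mul_inv, mul_inv, inv_inv, inv_inv, mul_assoc, mul_assoc, mul_inv_cancel,
      mul_one]

theorem S1_sqrt (c : S1) : ∃ ξ : S1, ξ ^ 2 = c := by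
  have hc := norm_S1 c
  have hne := S1_ne c
  have h1 : ‖Complex.exp (Complex.arg (c : ℂ) / 2 * Complex.I)‖ = 1 := by
    have e : (Complex.arg (c : ℂ) / 2 * Complex.I : ℂ) =
      (((Complex.arg (c : ℂ) / 2 : ℝ) : ℂ) * Complex.I) := by push_cast; ring
    rw [e, Complex.norm_exp_ofReal_mul_I]
  refine ⟨⟨Complex.exp (Complex.arg (c : ℂ) / 2 * Complex.I), mem_sphere_zero_iff_norm.mpr h1⟩, ?_⟩
  apply Subtype.ext
  rw [Metric.unitSphere.coe_pow]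
  show Complex.exp (Complex.arg (c : ℂ) / 2 * Complex.I) ^ 2 = c
  rw [← Complex.exp_nat_mul]
  have e2 : ((2 : ℕ) : ℂ) * (Complex.arg (c : ℂ) / 2 * Complex.I) =
    Complex.arg (c : ℂ) * Complex.I := by push_cast; ring
  rw [e2]
  have := Complex.norm_mul_exp_arg_mul_I (c : ℂ)
  rw [hc] at this
  simpa using this

theorem phase (z : ℂ) : ∃ c : S1, z = (‖z‖ : ℂ) * (c : ℂ) := by
  by_cases h : z = 0
  · exact ⟨1, by rw [h]; simp⟩
  · have hn : ‖z‖ ≠ 0 := norm_ne_zero_iff.mpr h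
    refine ⟨⟨z / ‖z‖, ?_⟩, ?_⟩
    · rw [mem_sphere_zero_iff_norm, norm_div, Complex.norm_real, norm_norm, div_self hn]
    · show z = (‖z‖ : ℂ) * (z / ‖z‖)
      have : (‖z‖ : ℂ) ≠ 0 := by exact_mod_cast hn
      field_simp

theorem ej_surj (U : S3) : ∃ (m : ℝ) (x ξ : S1), 0 ≤ m ∧ m ≤ Real.pi / 2 ∧
    cS x⁻¹ * ejS m * cS ξ = U := by
  obtain ⟨α, hα⟩ := phase (co U).1
  obtain ⟨β, hβ⟩ := phase (co U).2
  have hn : ‖(co U).1‖ ^ 2 + ‖(co U).2‖ ^ 2 = 1 := by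
    have := norm_toC (U : ℍ[ℝ])
    rw [mem_sphere_zero_iff_norm.mp U.2, one_pow] at this
    exact this.symm
  set r := ‖(co U).1‖ with hr
  set t := ‖(co U).2‖ with ht
  have hr0 : 0 ≤ r := norm_nonneg _
  have ht0 : 0 ≤ t := norm_nonneg _
  have hr1 : r ≤ 1 := by nlinarith
  obtain ⟨ξ, hξ⟩ := S1_sqrt (α * β⁻¹)
  refine ⟨Real.arccos r, ξ * α⁻¹, ξ, Real.arccos_nonneg r, Real.arccos_le_pi_div_two.mpr hr0, ?_⟩
  apply co_inj
  rw [co_act, co_ejS]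
  have hcos : Real.cos (Real.arccos r) = r := Real.cos_arccos (by linarith) hr1
  have hsin : Real.sin (Real.arccos r) = t := by
    rw [Real.sin_arccos]
    have : 1 - r ^ 2 = t ^ 2 := by linarith
    rw [this, Real.sqrt_sq ht0]
  have e1 : (ξ * α⁻¹)⁻¹ * ξ = α := by
    rw [mul_inv, inv_inv, mul_comm ξ⁻¹, mul_assoc, inv_mul_cancel, mul_one]
  have e2 : (ξ * α⁻¹)⁻¹ * ξ⁻¹ = β := by
    have : (ξ * α⁻¹)⁻¹ * ξ⁻¹ = α * (ξ ^ 2)⁻¹ := by
      rw [mul_inv, inv_inv, mul_comm ξ⁻¹, mul_assoc, pow_two, mul_inv]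
    rw [this, hξ, mul_inv, inv_inv, mul_inv_cancel_left]
  simp only [act, tws, tw, e1, e2, hcos, hsin]
  ext
  · simp only; rw [hα, mul_comm]
  · simp only; rw [hβ, mul_comm]

/-- the parameter space -/
abbrev DD : Type := (I × I) × (S1 × S1) × (S1 × S1) × S3

/-- the parametrisation of `(S³)³` -/
noncomputable def Qf (d : DD) : S3 × S3 × S3 :=
  (cS d.2.1.1⁻¹ * ejS (muf d.1.1 d.1.2) * cS d.2.2.1.1,
    cS d.2.1.2⁻¹ * ejS (laf d.1.1 d.1.2) * cS d.2.2.1.2,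
    cS (d.2.1.1 ^ 2 * d.2.1.2)⁻¹ * d.2.2.2 * cS (d.2.2.1.1 * (d.2.2.1.2 ^ 2)⁻¹))

theorem continuous_Qf : Continuous Qf := by
  unfold Qf
  have h1 := continuous_muf
  have h2 := continuous_laf
  have h3 := continuous_ejS
  have h4 := continuous_cS
  refine Continuous.prodMk ?_ (Continuous.prodMk ?_ ?_)
  · refine ((h4.comp (by fun_prop)).mul (h3.comp (h1.comp (by fun_prop)))).mul (h4.comp (by fun_prop))
  · refine ((h4.comp (by fun_prop)).mul (h3.comp (h2.comp (by fun_prop)))).mul (h4.comp (by fun_prop))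
  · refine ((h4.comp (by fun_prop)).mul (by fun_prop)).mul (h4.comp (by fun_prop))

theorem surjective_Qf : Function.Surjective Qf := by
  rintro ⟨U, V, W⟩
  obtain ⟨m, x, ξ, hm0, hm1, hU⟩ := ej_surj U
  obtain ⟨l, y, υ, hl0, hl1, hV⟩ := ej_surj V
  obtain ⟨s, θ, hs, hθ⟩ := sq_surj hm0 hm1 hl0 hl1
  refine ⟨((s, θ), (x, y), (ξ, υ), cS (x ^ 2 * y) * W * (cS (ξ * (υ ^ 2)⁻¹))⁻¹), ?_⟩
  unfold Qf
  simp only [hs, hθ, hU, hV, Prod.mk.injEq, true_and]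
  rw [cS_inv]
  group

section

variable (H : C(I × I, Mo))

/-- the map on the parameter space -/
noncomputable def Gf (d : DD) : V :=
  act (d.2.1.1 ^ 3 * (d.2.1.2 ^ 6)⁻¹) ((d.2.2.1.1 ^ 6)⁻¹ * (d.2.2.1.2 ^ 3)⁻¹)
    ((H (d.1.1, d.1.2)).1 d.2.2.2)

theorem continuous_Gf : Continuous (Gf H) := by
  unfold Gf act tws
  refine continuous_tw ?_ ?_ ?_
  · exact continuous_subtype_val.comp (by fun_prop)
  · exact continuous_subtype_val.comp (by fun_prop)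
  · have h1 : Continuous fun d : DD => (H (d.1.1, d.1.2)).1 :=
      Mo.continuous_val.comp (H.continuous.comp (by fun_prop))
    have h2 : Continuous fun d : DD => d.2.2.2 := by fun_prop
    exact h1.eval h2

theorem Gf_ne (d : DD) : Gf H d ≠ 0 := by
  unfold Gf
  intro h
  have h1 := (H (d.1.1, d.1.2)).2.1 d.2.2.2
  apply h1
  have h2 := congrArg (act (d.2.1.1 ^ 3 * (d.2.1.2 ^ 6)⁻¹)⁻¹
    ((d.2.2.1.1 ^ 6)⁻¹ * (d.2.2.1.2 ^ 3)⁻¹)⁻¹) h
  rw [act_act, inv_mul_cancel, mul_inv_cancel, act_one] at h2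
  rw [h2]
  ext <;> simp [act, tws, tw]

variable {H} (H0 : ∀ θ, H (0, θ) = Ga1.map (pathA θ))
  (H1 : ∀ θ, H (1, θ) = Ga2.map (pathB θ)) (Hs0 : ∀ s, H (s, 0) = Ga1.map (0, 0))
  (Hs1 : ∀ s, H (s, 1) = Ga1.map (Real.pi / 2, Real.pi / 2))

include H0 H1 Hs0 Hs1 in
theorem fiber (d d' : DD) (h : Qf d = Qf d') : Gf H d = Gf H d' := by
  obtain ⟨⟨s, θ⟩, ⟨x, y⟩, ⟨ξ, υ⟩, W⟩ := d
  obtain ⟨⟨s', θ'⟩, ⟨x', y'⟩, ⟨ξ', υ'⟩, W'⟩ := d'
  unfold Qf at h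
  simp only [Prod.mk.injEq] at h
  obtain ⟨hU, hV, hW⟩ := h
  obtain ⟨hm, hxc, hxs⟩ := ej_inj (muf_nonneg s θ) (muf_le s θ) (muf_nonneg s' θ') (muf_le s' θ') hU
  obtain ⟨hl, hyc, hys⟩ := ej_inj (laf_nonneg s θ) (laf_le s θ) (laf_nonneg s' θ') (laf_le s' θ') hV
  have hM : H (s, θ) = H (s', θ') := by
    obtain ⟨e1, e2⟩ := sq_inj hm hl
    subst e1
    rcases e2 with e3 | e3 | e3
    · rw [e3]
    · rw [e3, Hs0, Hs0]
    · rw [e3, Hs1, Hs1]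
  unfold Gf
  simp only
  rw [← hM]
  set x₁ := x * x'⁻¹ with hx₁
  set ξ₁ := ξ * ξ'⁻¹ with hξ₁
  set y₁ := y * y'⁻¹ with hy₁
  set υ₁ := υ * υ'⁻¹ with hυ₁
  have cA := fill_condA H0 H1 Hs0 Hs1 s θ x₁ ξ₁ hxc hxs
  have cB := fill_condB H0 H1 Hs0 Hs1 s θ y₁ υ₁ hyc hys
  have hW' : W' = cS (x₁ ^ 2)⁻¹ * (cS y₁⁻¹ * W * cS (υ₁ ^ 2)⁻¹) * cS ξ₁ := by
    have e1 : cS (x' ^ 2 * y') * (cS (x' ^ 2 * y')⁻¹ * W' * cS (ξ' * (υ' ^ 2)⁻¹)) *
        cS (ξ' * (υ' ^ 2)⁻¹)⁻¹ = W' := by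
      rw [cS_inv, cS_inv]; group
    rw [← e1, ← hW]
    have e2 : (x₁ ^ 2)⁻¹ * y₁⁻¹ = (x' ^ 2 * y') * (x ^ 2 * y)⁻¹ := by
      rw [hx₁, hy₁]
      apply Subtype.ext
      have := S1_ne x; have := S1_ne x'; have := S1_ne y; have := S1_ne y'
      simp only [Metric.unitSphere.coe_mul, Metric.unitSphere.coe_inv, Metric.unitSphere.coe_pow]
      field_simp
    have e3 : (υ₁ ^ 2)⁻¹ * ξ₁ = (ξ * (υ ^ 2)⁻¹) * (ξ' * (υ' ^ 2)⁻¹)⁻¹ := by
      rw [hυ₁, hξ₁]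
      apply Subtype.ext
      have := S1_ne υ; have := S1_ne υ'; have := S1_ne ξ; have := S1_ne ξ'
      simp only [Metric.unitSphere.coe_mul, Metric.unitSphere.coe_inv, Metric.unitSphere.coe_pow]
      field_simp
    have e4 : cS (x₁ ^ 2)⁻¹ * (cS y₁⁻¹ * W * cS (υ₁ ^ 2)⁻¹) * cS ξ₁ =
        cS ((x₁ ^ 2)⁻¹ * y₁⁻¹) * W * cS ((υ₁ ^ 2)⁻¹ * ξ₁) := by
      rw [cS_mul (x₁ ^ 2)⁻¹ y₁⁻¹, cS_mul (υ₁ ^ 2)⁻¹ ξ₁]; simp only [mul_assoc]
    have e5 : cS (x' ^ 2 * y') * (cS (x ^ 2 * y)⁻¹ * W * cS (ξ * (υ ^ 2)⁻¹)) *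
        cS (ξ' * (υ' ^ 2)⁻¹)⁻¹ = cS ((x' ^ 2 * y') * (x ^ 2 * y)⁻¹) * W *
        cS ((ξ * (υ ^ 2)⁻¹) * (ξ' * (υ' ^ 2)⁻¹)⁻¹) := by
      rw [cS_mul (x' ^ 2 * y'), cS_mul (ξ * (υ ^ 2)⁻¹)]; simp only [mul_assoc]
    rw [e4, e5, e2, e3]
  rw [hW', cA, cB, act_act, act_act]
  congr 1
  · rw [hx₁, hy₁]
    apply Subtype.ext
    have := S1_ne x; have := S1_ne x'; have := S1_ne y; have := S1_ne y'
    simp only [Metric.unitSphere.coe_mul, Metric.unitSphere.coe_inv, Metric.unitSphere.coe_pow]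
    field_simp
  · rw [hυ₁, hξ₁]
    apply Subtype.ext
    have := S1_ne υ; have := S1_ne υ'; have := S1_ne ξ; have := S1_ne ξ'
    simp only [Metric.unitSphere.coe_mul, Metric.unitSphere.coe_inv, Metric.unitSphere.coe_pow]
    field_simp

end

/-- radial projection to the sphere -/
noncomputable def mkS (v : V) (h : v ≠ 0) : S3 :=
  ⟨‖toC.symm v‖⁻¹ • toC.symm v, by
    have h1 : toC.symm v ≠ 0 := fun h0 => h (toC.symm.map_eq_zero_iff.mp h0)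
    rw [mem_sphere_zero_iff_norm, norm_smul, norm_inv, norm_norm,
      inv_mul_cancel₀ (norm_ne_zero_iff.mpr h1)]⟩

theorem act_ne {z w : S1} {v : V} (h : v ≠ 0) : act z w v ≠ 0 := by
  intro h0
  apply h
  have h2 := congrArg (act z⁻¹ w⁻¹) h0
  rw [act_act, inv_mul_cancel, mul_inv_cancel, act_one] at h2
  rw [h2]
  ext <;> simp [act, tws, tw]

theorem norm_symm_act (z w : S1) (v : V) : ‖toC.symm (act z w v)‖ = ‖toC.symm v‖ := by
  have h1 := norm_toC (toC.symm (act z w v))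
  have h2 := norm_toC (toC.symm v)
  rw [LinearEquiv.apply_symm_apply] at h1 h2
  have h3 : ‖(act z w v).1‖ = ‖v.1‖ := by
    simp only [act, tws, tw, norm_mul, norm_S1, one_mul]
  have h4 : ‖(act z w v).2‖ = ‖v.2‖ := by
    simp only [act, tws, tw, norm_mul, norm_S1, one_mul]
  rw [h3, h4, ← h2] at h1
  have := norm_nonneg (toC.symm (act z w v))
  have := norm_nonneg (toC.symm v)
  exact (pow_left_inj₀ (by assumption) (by assumption) two_ne_zero).mp h1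

theorem mkS_act (z w : S1) (v : V) (h : v ≠ 0) :
    mkS (act z w v) (act_ne h) = cS z * mkS v h * cS w := by
  apply co_inj
  rw [co_act]
  have e : ∀ (v : V) (h : v ≠ 0), co (mkS v h) = ‖toC.symm v‖⁻¹ • v := by
    intro v h
    rw [co, mkS]
    simp only
    rw [map_smul, LinearEquiv.apply_symm_apply]
  rw [e, e, norm_symm_act]
  ext
  · simp only [act, tws, tw, Prod.smul_fst, Complex.real_smul]; ring
  · simp only [act, tws, tw, Prod.smul_snd, Complex.real_smul]; ring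

/-- **Module G.** -/
theorem stmtG : StmtG := by
  obtain ⟨H, H0, H1, Hs0, Hs1⟩ := exists_fill
  have hq : Topology.IsQuotientMap Qf :=
    Topology.IsQuotientMap.of_surjective_continuous surjective_Qf continuous_Qf
  choose sec hsec using surjective_Qf
  have hG : ∀ d, Gf H (sec (Qf d)) = Gf H d := fun d => fiber H0 H1 Hs0 Hs1 _ _ (hsec _)
  have hcont : Continuous fun u => Gf H (sec u) := by
    rw [hq.continuous_iff]
    have : (fun u => Gf H (sec u)) ∘ Qf = Gf H := funext hG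
    rw [this]
    exact continuous_Gf H
  have hne : ∀ u, Gf H (sec u) ≠ 0 := fun u => Gf_ne H _
  refine ⟨⟨fun u => mkS (Gf H (sec u)) (hne u), ?_⟩, ?_⟩
  · refine Continuous.subtype_mk ?_ _
    have h1 : Continuous fun u => toC.symm (Gf H (sec u)) := continuous_toC_symm.comp hcont
    refine Continuous.smul (Continuous.inv₀ h1.norm ?_) h1
    intro u h0
    exact hne u (toC.symm.map_eq_zero_iff.mp (norm_eq_zero.mp h0))
  · intro x y ξ υ U V W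
    obtain ⟨d, hd⟩ : ∃ d, Qf d = (U, V, W) := ⟨sec (U, V, W), hsec _⟩
    obtain ⟨⟨s, θ⟩, ⟨x', y'⟩, ⟨ξ', υ'⟩, W'⟩ := d
    have key : Qf ((s, θ), (x * x', y * y'), (ξ' * ξ, υ' * υ), W') =
        ((cS x)⁻¹ * U * cS ξ, (cS y)⁻¹ * V * cS υ,
          (cS (x ^ 2 * y))⁻¹ * W * cS (ξ * (υ ^ 2)⁻¹)) := by
      unfold Qf at hd ⊢
      simp only [Prod.mk.injEq] at hd ⊢
      obtain ⟨hU, hV, hW⟩ := hd
      refine ⟨?_, ?_, ?_⟩
      · rw [← hU, mul_inv, cS_mul, cS_mul, cS_inv x]; simp only [mul_assoc]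
      · rw [← hV, mul_inv, cS_mul, cS_mul, cS_inv y]; simp only [mul_assoc]
      · rw [← hW, ← cS_inv]
        have e1 : ((x * x') ^ 2 * (y * y'))⁻¹ = (x ^ 2 * y)⁻¹ * (x' ^ 2 * y')⁻¹ := by
          apply Subtype.ext
          have := S1_ne x; have := S1_ne x'; have := S1_ne y; have := S1_ne y'
          simp only [Metric.unitSphere.coe_mul, Metric.unitSphere.coe_inv,
            Metric.unitSphere.coe_pow]
          field_simp
        have e2 : ξ' * ξ * ((υ' * υ) ^ 2)⁻¹ = (ξ' * (υ' ^ 2)⁻¹) * (ξ * (υ ^ 2)⁻¹) := by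
          apply Subtype.ext
          have := S1_ne υ; have := S1_ne υ'; have := S1_ne ξ; have := S1_ne ξ'
          simp only [Metric.unitSphere.coe_mul, Metric.unitSphere.coe_inv,
            Metric.unitSphere.coe_pow]
          field_simp
        rw [e1, e2, cS_mul, cS_mul (ξ' * (υ' ^ 2)⁻¹)]
        simp only [mul_assoc]
    have e3 : Gf H (sec ((cS x)⁻¹ * U * cS ξ, (cS y)⁻¹ * V * cS υ,
          (cS (x ^ 2 * y))⁻¹ * W * cS (ξ * (υ ^ 2)⁻¹))) =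
        act (x ^ 3 * (y ^ 6)⁻¹) ((ξ ^ 6)⁻¹ * (υ ^ 3)⁻¹) (Gf H (sec (U, V, W))) := by
      rw [← key, hG, ← hd, hG]
      unfold Gf
      simp only
      rw [act_act]
      congr 1
      · apply Subtype.ext
        have := S1_ne x; have := S1_ne x'; have := S1_ne y; have := S1_ne y'
        simp only [Metric.unitSphere.coe_mul, Metric.unitSphere.coe_inv,
          Metric.unitSphere.coe_pow]
        field_simp
      · apply Subtype.ext
        have := S1_ne υ; have := S1_ne υ'; have := S1_ne ξ; have := S1_ne ξ'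
        simp only [Metric.unitSphere.coe_mul, Metric.unitSphere.coe_inv,
          Metric.unitSphere.coe_pow]
        field_simp
    show mkS (Gf H (sec ((cS x)⁻¹ * U * cS ξ, (cS y)⁻¹ * V * cS υ,
          (cS (x ^ 2 * y))⁻¹ * W * cS (ξ * (υ ^ 2)⁻¹)))) (hne _) =
      cS (x ^ 3 * (y ^ 6)⁻¹) * mkS (Gf H (sec (U, V, W))) (hne _) * cS ((ξ ^ 6)⁻¹ * (υ ^ 3)⁻¹)
    rw [← mkS_act]
    congr 1

end Pool.Agent.Helper5.Z2S
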