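import Pool.Agent.Helper5.Z2S.GPath

/-!
# The path homotopy in the space of odd maps
-/

namespace Pool.Agent.Helper5.Z2S

open unitInterval Metric Quaternion Pool.Agent.Helper90.Deg

section general

variable {X Y : Type*} [TopologicalSpace X] [TopologicalSpace Y]

/-- path homotopy between paths with propositionally equal end points -/
def PH {a b c d : X} (p : Path a b) (q : Path c d) : Prop :=
  ∃ (h1 : a = c) (h2 : b = d), p.Homotopic (q.cast h1 h2)

theorem PH.of {a b : X} {p q : Path a b} (h : p.Homotopic q) : PH p q := ⟨rfl, rfl, h⟩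

theorem PH.homotopic {a b : X} {p q : Path a b} (h : PH p q) : p.Homotopic q := by
  obtain ⟨h1, h2, h3⟩ := h
  exact h3

theorem PH.symm {a b c d : X} {p : Path a b} {q : Path c d} (h : PH p q) : PH q p := by
  obtain ⟨h1, h2, h3⟩ := h
  subst h1 h2
  exact ⟨rfl, rfl, h3.symm⟩

theorem PH.trans {a b c d e f : X} {p : Path a b} {q : Path c d} {r : Path e f} (h : PH p q)
    (h' : PH q r) : PH p r := by
  obtain ⟨h1, h2, h3⟩ := h
  obtain ⟨h4, h5, h6⟩ := h'
  subst h1 h2 h4 h5
  exact ⟨rfl, rfl, h3.trans h6⟩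

theorem PH.of_eq {a b c d : X} {p : Path a b} {q : Path c d} (h : ∀ t, p t = q t) : PH p q := by
  have h1 : a = c := by rw [← p.source, ← q.source, h]
  have h2 : b = d := by rw [← p.target, ← q.target, h]
  refine ⟨h1, h2, ?_⟩
  have e : p = q.cast h1 h2 := Path.ext (funext h)
  rw [e]

theorem PH.map {a b c d : X} {p : Path a b} {q : Path c d} (h : PH p q) (f : C(X, Y)) :
    PH (p.map f.continuous) (q.map f.continuous) := by
  obtain ⟨h1, h2, h3⟩ := h
  subst h1 h2
  exact ⟨rfl, rfl, h3.map f⟩

theorem q_refl_symm (A : X) :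
    (Path.Homotopic.Quotient.refl A).symm = Path.Homotopic.Quotient.refl A := by
  rw [← Path.Homotopic.Quotient.mk_refl, ← Path.Homotopic.Quotient.mk_symm, Path.refl_symm]

theorem hA {A B A' B' : X} {p : Path A B} {l₀ : Path A A'}
    {q : Path A' B'} {l₁ : Path B B'} (h : p.Homotopic ((l₀.trans q).trans l₁.symm))
    (h0 : PH l₀ (Path.refl A)) (h1 : PH l₁ (Path.refl B)) : PH p q := by
  obtain ⟨h01, h02, h03⟩ := h0
  obtain ⟨h11, h12, h13⟩ := h1
  subst h02 h12
  refine ⟨rfl, rfl, ?_⟩
  rw [Path.cast_rfl_rfl] at *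
  rw [← Path.Homotopic.Quotient.eq] at *
  simp only [Path.Homotopic.Quotient.mk_trans, Path.Homotopic.Quotient.mk_symm,
    Path.Homotopic.Quotient.mk_refl] at *
  rw [h, h03, h13, q_refl_symm]
  simp

theorem hB {A A' C C' : X} {l : Path A A'} {p : Path A C}
    {m : Path C C'} {p' : Path A' C'} (hp : ∀ t, p' t = p t)
    (h : l.Homotopic ((p.trans m).trans p'.symm))
    (hm : PH m (Path.refl C)) : PH l (Path.refl A) := by
  obtain ⟨h1, h2, h3⟩ := hm
  subst h2
  have h4 : A' = A := by rw [← p'.source, ← p.source, hp]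
  subst h4
  have e : p' = p := Path.ext (funext hp)
  subst e
  refine ⟨rfl, rfl, ?_⟩
  rw [Path.cast_rfl_rfl] at *
  rw [← Path.Homotopic.Quotient.eq] at *
  simp only [Path.Homotopic.Quotient.mk_trans, Path.Homotopic.Quotient.mk_symm,
    Path.Homotopic.Quotient.mk_refl] at *
  rw [h, h3]
  simp

theorem hC {A A' B B' : X} {l : Path A A'} {a : Path A B} {b : Path B B'}
    {c : Path A' B'} (ha : ∀ t, a t = A) (hb : ∀ t, b t = A) (hc : ∀ t, c t = A)
    (h : l.Homotopic ((a.trans b).trans c.symm)) : PH l (Path.refl A) := by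
  have e1 : B = A := by rw [← ha 1, a.target]
  have e2 : B' = A := by rw [← hb 1, b.target]
  have e3 : A' = A := by rw [← hc 0, c.source]
  subst e1
  subst e2
  subst e3
  have ea : a = Path.refl _ := Path.ext (funext ha)
  have eb : b = Path.refl _ := Path.ext (funext hb)
  have ec : c = Path.refl _ := Path.ext (funext hc)
  subst ea eb ec
  refine ⟨rfl, rfl, ?_⟩
  rw [Path.cast_rfl_rfl] at *
  rw [← Path.Homotopic.Quotient.eq] at *
  simp only [Path.Homotopic.Quotient.mk_trans, Path.Homotopic.Quotient.mk_symm,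
    Path.Homotopic.Quotient.mk_refl] at *
  rw [h, q_refl_symm]
  simp

/-- straight path -/
noncomputable def seg (p q : ℝ × ℝ) : Path p q where
  toFun t := (p.1 + t * (q.1 - p.1), p.2 + t * (q.2 - p.2))
  continuous_toFun := by fun_prop
  source' := by simp
  target' := by simp

theorem seg_apply (p q : ℝ × ℝ) (t : I) :
    seg p q t = (p.1 + t * (q.1 - p.1), p.2 + t * (q.2 - p.2)) := rfl

instance : ContractibleSpace (ℝ × ℝ) := RealTopologicalVectorSpace.contractibleSpace

theorem plane_homotopic {p q : ℝ × ℝ} (a b : Path p q) : a.Homotopic b :=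
  SimplyConnectedSpace.paths_homotopic a b

/-- a rectangle in the plane, mapped to `X` -/
theorem rect (f : C(ℝ × ℝ, X)) (p q r s : ℝ × ℝ) :
    ((seg p q).map f.continuous).Homotopic
      ((((seg p r).map f.continuous).trans ((seg r s).map f.continuous)).trans
        ((seg q s).map f.continuous).symm) := by
  have h := (plane_homotopic (seg p q) (((seg p r).trans (seg r s)).trans (seg q s).symm)).map f
  rwa [Path.map_trans, Path.map_trans, ← Path.map_symm] at h

end general

/-! ### the loops are null-homotopic -/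

/-- the full circle loop contracts -/
theorem loopZ : PH ((seg (0, 0) (0, 2 * Real.pi)).map Zf.map.continuous)
    (Path.refl (Zf.map (0, 0))) := by
  refine hC ?_ ?_ ?_ (rect Zf.map (0, 0) (0, 2 * Real.pi) (Real.pi / 2, 0)
    (Real.pi / 2, 2 * Real.pi))
  · intro t
    apply Mo.ext; intro W
    simp only [Path.map_coe, Function.comp_apply, seg_apply, Fam.map_val]
    simp only [sub_self, mul_zero, add_zero]
    exact Zf_zero_right _ _
  · intro t
    apply Mo.ext; intro W
    simp only [Path.map_coe, Function.comp_apply, seg_apply, Fam.map_val]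
    simp only [sub_self, mul_zero, add_zero]
    exact Zf_half _ _
  · intro t
    apply Mo.ext; intro W
    simp only [Path.map_coe, Function.comp_apply, seg_apply, Fam.map_val]
    simp only [sub_self, mul_zero, add_zero]
    exact Zf_two_pi _ _

theorem loopN1 : PH ((seg (1, 0) (1, Real.pi / 2)).map Nf.map.continuous)
    (Path.refl (Nf.map (1, 0))) := by
  have h1 : PH ((seg (1, 0) (1, Real.pi / 2)).map Nf.map.continuous)
      ((seg (0, 0) (0, 2 * Real.pi)).map Zf.map.continuous) := by
    apply PH.of_eq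
    intro t
    apply Mo.ext; intro W
    simp only [Path.map_coe, Function.comp_apply, seg_apply, Fam.map_val]
    simp only [sub_self, mul_zero, add_zero, zero_add, sub_zero]
    rw [Nf_one]
    congr 2
    ring
  have h2 : PH (Path.refl (Zf.map (0, 0))) (Path.refl (Nf.map (1, 0))) := by
    apply PH.of_eq
    intro t
    apply Mo.ext; intro W
    simp only [Path.refl_apply, Fam.map_val]
    rw [Nf_one, mul_zero]
  exact (h1.trans loopZ).trans h2

theorem loopN0 : PH ((seg (0, 0) (0, Real.pi / 2)).map Nf.map.continuous)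
    (Path.refl (Nf.map (0, 0))) := by
  refine hB ?_ (rect Nf.map (0, 0) (0, Real.pi / 2) (1, 0) (1, Real.pi / 2)) loopN1
  intro t
  apply Mo.ext; intro W
  simp only [Path.map_coe, Function.comp_apply, seg_apply, Fam.map_val]
  simp only [sub_self, mul_zero, add_zero]
  exact Nf_half_right _ _

theorem loopK0 : PH ((seg (0, 0) (0, Real.pi / 2)).map Kf.map.continuous)
    (Path.refl (Kf.map (0, 0))) := by
  have h1 : PH ((seg (0, 0) (0, Real.pi / 2)).map Kf.map.continuous)
      ((seg (0, 0) (0, Real.pi / 2)).map Nf.map.continuous) := by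
    apply PH.of_eq
    intro t
    apply Mo.ext; intro W
    simp only [Path.map_coe, Function.comp_apply, seg_apply, Fam.map_val]
    simp only [sub_self, mul_zero, add_zero]
    exact Kf_zero_left _ _
  have h2 : PH (Path.refl (Nf.map (0, 0))) (Path.refl (Kf.map (0, 0))) := by
    apply PH.of_eq
    intro t
    apply Mo.ext; intro W
    simp only [Path.refl_apply, Fam.map_val]
    exact (Kf_zero_left _ _).symm
  exact (h1.trans loopN0).trans h2

theorem co_qj : co qj = (0, 1) := toC_qj

/-- conjugation by `j` on `S³` -/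
noncomputable def ccS : C(S3, S3) := ⟨fun x => qj * x * qj⁻¹, by fun_prop⟩

theorem co_inv (x : S3) : co x⁻¹ = ((starRingEnd ℂ) (co x).1, -(co x).2) := by
  have h : co x⁻¹ = toC (star (x : ℍ[ℝ])) := by
    show toC ((x⁻¹ : S3) : ℍ[ℝ]) = _
    congr 1
    have h1 : ((x⁻¹ : S3) : ℍ[ℝ]) = (x : ℍ[ℝ])⁻¹ := rfl
    rw [h1, Quaternion.inv_def, normSq_coe, inv_one, one_smul]
  rw [h, co, toC_apply, toC_apply]
  refine Prod.ext (Complex.ext ?_ ?_) (Complex.ext ?_ ?_) <;> simp

theorem co_ccS (x : S3) : co (ccS x) = cc (co x) := by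
  show co (qj * x * qj⁻¹) = _
  rw [co_mul, co_mul, co_inv, co_qj]
  ext <;> simp [cc]

/-- precomposition with conjugation by `j` -/
noncomputable def preC : C(Mo, Mo) where
  toFun M := ⟨M.1.comp ccS, fun W => M.2.1 _, fun W => by
    have e : ccS (-W) = -ccS W := by
      apply co_inj
      rw [co_ccS, co_neg, cc_neg, co_neg, co_ccS]
    show M.1 (ccS (-W)) = -M.1 (ccS W)
    rw [e, M.2.2]⟩
  continuous_toFun := Continuous.subtype_mk
    ((ContinuousMap.continuous_precomp ccS).comp Mo.continuous_val) _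

theorem preC_val (M : Mo) (W : S3) : (preC M).1 W = M.1 (ccS W) := rfl

theorem loopK1 : PH ((seg (Real.pi / 2, 0) (Real.pi / 2, Real.pi / 2)).map Kf.map.continuous)
    (Path.refl (Kf.map (Real.pi / 2, 0))) := by
  have h1 : PH ((seg (Real.pi / 2, 0) (Real.pi / 2, Real.pi / 2)).map Kf.map.continuous)
      (((seg (0, 0) (0, Real.pi / 2)).map Kf.map.continuous).map preC.continuous) := by
    apply PH.of_eq
    intro t
    apply Mo.ext; intro W
    simp only [Path.map_coe, Function.comp_apply, seg_apply, Fam.map_val, preC_val]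
    simp only [sub_self, mul_zero, add_zero]
    rw [Kf_half_left, co_ccS]
  have h2 : PH ((Path.refl (Kf.map (0, 0))).map preC.continuous)
      (Path.refl (Kf.map (Real.pi / 2, 0))) := by
    apply PH.of_eq
    intro t
    apply Mo.ext; intro W
    simp only [Path.map_coe, Function.comp_apply, Path.refl_apply, Fam.map_val, preC_val]
    rw [Kf_half_left, co_ccS]
  exact (h1.trans (loopK0.map preC)).trans h2

theorem diagK : PH ((seg (0, 0) (Real.pi / 2, 0)).map Kf.map.continuous)
    ((seg (0, Real.pi / 2) (Real.pi / 2, Real.pi / 2)).map Kf.map.continuous) :=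
  hA (rect Kf.map _ _ _ _) loopK0 loopK1

/-- `(μ,λ)` along the two edges through `(0,π/2)` -/
noncomputable def pathA : Path ((0 : ℝ), (0 : ℝ)) (Real.pi / 2, Real.pi / 2) where
  toFun t := (Real.pi * max 0 ((t : ℝ) - 1 / 2), Real.pi * min (t : ℝ) (1 / 2))
  continuous_toFun := by fun_prop
  source' := by
    have h1 : max (0 : ℝ) (((0 : I) : ℝ) - 1 / 2) = 0 := by
      rw [max_eq_left]; norm_num
    have h2 : min ((0 : I) : ℝ) (1 / 2) = 0 := by
      rw [min_eq_left]; · rfl
      · norm_num
    rw [h1, h2, mul_zero]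
  target' := by
    have h1 : max (0 : ℝ) (((1 : I) : ℝ) - 1 / 2) = 1 / 2 := by
      rw [max_eq_right] <;> norm_num
    have h2 : min ((1 : I) : ℝ) (1 / 2) = 1 / 2 := by
      rw [min_eq_right]; norm_num
    rw [h1, h2]; ext <;> simp only <;> ring

/-- `(μ,λ)` along the two edges through `(π/2,0)` -/
noncomputable def pathB : Path ((0 : ℝ), (0 : ℝ)) (Real.pi / 2, Real.pi / 2) where
  toFun t := (Real.pi * min (t : ℝ) (1 / 2), Real.pi * max 0 ((t : ℝ) - 1 / 2))
  continuous_toFun := by fun_prop
  source' := by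
    have := pathA.source
    have h : ∀ t : I, pathA t = (Real.pi * max 0 ((t : ℝ) - 1 / 2), Real.pi * min (t : ℝ) (1 / 2)) :=
      fun t => rfl
    rw [h, Prod.mk.injEq] at this
    rw [this.1, this.2]
  target' := by
    have := pathA.target
    have h : ∀ t : I, pathA t = (Real.pi * max 0 ((t : ℝ) - 1 / 2), Real.pi * min (t : ℝ) (1 / 2)) :=
      fun t => rfl
    rw [h, Prod.mk.injEq] at this
    rw [this.1, this.2]

theorem edges : PH (pathA.map Ga1.map.continuous) (pathB.map Ga2.map.continuous) := by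
  have h1 : PH (pathA.map Ga1.map.continuous)
      ((seg (0, 0) (Real.pi / 2, Real.pi / 2)).map Ga1.map.continuous) :=
    PH.of ((plane_homotopic _ _).map Ga1.map)
  have h2 : PH ((seg (0, 0) (Real.pi / 2, Real.pi / 2)).map Ga1.map.continuous)
      ((seg (0, 0) (Real.pi / 2, 0)).map Kf.map.continuous) := by
    apply PH.of_eq
    intro t
    apply Mo.ext; intro W
    simp only [Path.map_coe, Function.comp_apply, seg_apply, Fam.map_val]
    simp only [sub_self, mul_zero, add_zero]
    rw [Kf_zero_right]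
  have h3 : PH ((seg (0, Real.pi / 2) (Real.pi / 2, Real.pi / 2)).map Kf.map.continuous)
      ((seg (0, 0) (Real.pi / 2, Real.pi / 2)).map Ga2.map.continuous) := by
    apply PH.of_eq
    intro t
    apply Mo.ext; intro W
    simp only [Path.map_coe, Function.comp_apply, seg_apply, Fam.map_val]
    simp only [sub_self, mul_zero, add_zero]
    rw [Kf_half_right]
  have h4 : PH ((seg (0, 0) (Real.pi / 2, Real.pi / 2)).map Ga2.map.continuous)
      (pathB.map Ga2.map.continuous) :=
    PH.of ((plane_homotopic _ _).map Ga2.map)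
  exact (((h1.trans h2).trans diagK).trans h3).trans h4

/-- **The filling homotopy.** -/
theorem exists_fill : ∃ H : C(I × I, Mo),
    (∀ θ, H (0, θ) = Ga1.map (pathA θ)) ∧ (∀ θ, H (1, θ) = Ga2.map (pathB θ)) ∧
    (∀ s, H (s, 0) = Ga1.map (0, 0)) ∧ (∀ s, H (s, 1) = Ga1.map (Real.pi / 2, Real.pi / 2)) := by
  obtain ⟨h1, h2, ⟨F⟩⟩ := edges
  refine ⟨F.toContinuousMap, ?_, ?_, ?_, ?_⟩
  · intro θ; exact F.apply_zero θ
  · intro θ; exact F.apply_one θ
  · intro s; exact F.source s
  · intro s; exact F.target s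

end Pool.Agent.Helper5.Z2S
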