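import Pool.Agent.Helper5.Z2S.GEqv

/-!
# The torus-equivariant map `(S³)³ → S³`
-/

namespace Pool.Agent.Helper5.Z2S

open unitInterval Metric Quaternion Pool.Agent.Helper90.Deg

theorem co_cS (z : S1) : co (cS z) = ((z : ℂ), 0) := toC_cS z

theorem co_act (z w : S1) (U : S3) : co (cS z * U * cS w) = act z w (co U) := by
  rw [co_mul, co_mul, co_cS, co_cS]
  ext
  · simp [act, tws, tw]; ring
  · simp only [act, tws, tw, zero_mul, sub_zero, add_zero, mul_zero, conj_S1,
      Metric.unitSphere.coe_mul]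
    ring

/-- `cos t + j sin t` -/
noncomputable def ejS (t : ℝ) : S3 := ⟨toC.symm ((Real.cos t : ℂ), (Real.sin t : ℂ)), by
  rw [mem_sphere_zero_iff_norm]
  have h := norm_toC (toC.symm ((Real.cos t : ℂ), (Real.sin t : ℂ)))
  rw [LinearEquiv.apply_symm_apply] at h
  simp only [Complex.norm_real, Real.norm_eq_abs, sq_abs, Real.cos_sq_add_sin_sq] at h
  nlinarith [norm_nonneg (toC.symm ((Real.cos t : ℂ), (Real.sin t : ℂ)))]⟩

theorem co_ejS (t : ℝ) : co (ejS t) = ((Real.cos t : ℂ), (Real.sin t : ℂ)) := by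
  rw [co, ejS, LinearEquiv.apply_symm_apply]

theorem continuous_ejS : Continuous ejS :=
  Continuous.subtype_mk (continuous_toC_symm.comp (by fun_prop)) _

theorem continuous_cS : Continuous cS :=
  Continuous.subtype_mk (continuous_toC_symm.comp (by fun_prop)) _

/-! ### the square -/

/-- the first coordinate of the square -/
noncomputable def muf (s θ : I) : ℝ :=
  Real.pi * (max 0 ((θ : ℝ) - 1 / 2) + s * min (θ : ℝ) (1 - θ))

/-- the second coordinate of the square -/
noncomputable def laf (s θ : I) : ℝ := Real.pi * θ - muf s θ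

theorem min_nonneg' (θ : I) : 0 ≤ min (θ : ℝ) (1 - θ) :=
  le_min θ.2.1 (by linarith [θ.2.2])

theorem muf_nonneg (s θ : I) : 0 ≤ muf s θ := by
  have := min_nonneg' θ
  have h1 : 0 ≤ max 0 ((θ : ℝ) - 1 / 2) := le_max_left _ _
  have h2 := s.2.1
  unfold muf
  have := Real.pi_pos
  positivity

theorem muf_le (s θ : I) : muf s θ ≤ Real.pi / 2 := by
  have h0 := min_nonneg' θ
  have h3 : s * min (θ : ℝ) (1 - θ) ≤ min (θ : ℝ) (1 - θ) :=
    mul_le_of_le_one_left h0 s.2.2
  have h4 : max 0 ((θ : ℝ) - 1 / 2) + min (θ : ℝ) (1 - θ) ≤ 1 / 2 := by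
    rcases le_total (θ : ℝ) (1 / 2) with h | h
    · rw [max_eq_left (by linarith), min_eq_left (by linarith)]; linarith
    · rw [max_eq_right (by linarith), min_eq_right (by linarith)]; linarith
  unfold muf
  nlinarith [Real.pi_pos]

theorem laf_nonneg (s θ : I) : 0 ≤ laf s θ := by
  have h0 := min_nonneg' θ
  have h3 : s * min (θ : ℝ) (1 - θ) ≤ min (θ : ℝ) (1 - θ) :=
    mul_le_of_le_one_left h0 s.2.2
  have h4 : max 0 ((θ : ℝ) - 1 / 2) + min (θ : ℝ) (1 - θ) ≤ θ := by
    rcases le_total (θ : ℝ) (1 / 2) with h | h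
    · rw [max_eq_left (by linarith), min_eq_left (by linarith)]; linarith
    · rw [max_eq_right (by linarith), min_eq_right (by linarith)]; linarith
  unfold laf muf
  nlinarith [Real.pi_pos]

theorem laf_le (s θ : I) : laf s θ ≤ Real.pi / 2 := by
  have h0 := min_nonneg' θ
  have h5 : 0 ≤ s * min (θ : ℝ) (1 - θ) := mul_nonneg s.2.1 h0
  have h4 : (θ : ℝ) - 1 / 2 ≤ max 0 ((θ : ℝ) - 1 / 2) := le_max_right _ _
  unfold laf muf
  nlinarith [Real.pi_pos]

theorem continuous_muf : Continuous (fun p : I × I => muf p.1 p.2) := by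
  unfold muf; fun_prop

theorem continuous_laf : Continuous (fun p : I × I => laf p.1 p.2) := by
  unfold laf muf; fun_prop

theorem pathA_eq (θ : I) : pathA θ = (muf 0 θ, laf 0 θ) := by
  show (Real.pi * max 0 ((θ : ℝ) - 1 / 2), Real.pi * min (θ : ℝ) (1 / 2)) = _
  ext
  · simp [muf]
  · simp only [laf, muf]
    rcases le_total (θ : ℝ) (1 / 2) with h | h
    · rw [max_eq_left (by linarith), min_eq_left h]; simp
    · rw [max_eq_right (by linarith), min_eq_right h]; simp; ring

theorem pathB_eq (θ : I) : pathB θ = (muf 1 θ, laf 1 θ) := by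
  show (Real.pi * min (θ : ℝ) (1 / 2), Real.pi * max 0 ((θ : ℝ) - 1 / 2)) = _
  ext
  · simp only [muf]
    rcases le_total (θ : ℝ) (1 / 2) with h | h
    · rw [max_eq_left (by linarith), min_eq_left h, min_eq_left (by linarith)]; simp
    · rw [max_eq_right (by linarith), min_eq_right h, min_eq_right (by linarith)]; simp; ring
  · simp only [laf, muf]
    rcases le_total (θ : ℝ) (1 / 2) with h | h
    · rw [max_eq_left (by linarith), min_eq_left (by linarith)]; simp
    · rw [max_eq_right (by linarith), min_eq_right (by linarith)]; simp; ring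

/-- injectivity of the parametrisation off the corners -/
theorem sq_inj {s θ s' θ' : I} (h1 : muf s θ = muf s' θ') (h2 : laf s θ = laf s' θ') :
    θ = θ' ∧ (s = s' ∨ θ = 0 ∨ θ = 1) := by
  have hpi := Real.pi_pos
  have e : θ = θ' := by
    apply Subtype.ext
    unfold laf at h2
    have : Real.pi * (θ : ℝ) = Real.pi * θ' := by linarith
    exact mul_left_cancel₀ hpi.ne' this
  subst e
  refine ⟨rfl, ?_⟩
  unfold muf at h1
  have h3 := mul_left_cancel₀ hpi.ne' h1
  have h4 : ((s : ℝ) - s') * min (θ : ℝ) (1 - θ) = 0 := by linarith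
  rcases mul_eq_zero.mp h4 with h5 | h5
  · left; apply Subtype.ext; linarith
  · right
    rcases min_choice (θ : ℝ) (1 - θ) with h6 | h6
    · left; apply Subtype.ext; rw [h6] at h5; exact h5
    · right; apply Subtype.ext; rw [h6] at h5; show (θ : ℝ) = 1; linarith

/-- surjectivity onto the square -/
theorem sq_surj {m l : ℝ} (hm0 : 0 ≤ m) (hm1 : m ≤ Real.pi / 2) (hl0 : 0 ≤ l)
    (hl1 : l ≤ Real.pi / 2) : ∃ s θ : I, muf s θ = m ∧ laf s θ = l := by
  have hpi := Real.pi_pos
  let θ : I := ⟨(m + l) / Real.pi, by positivity, by rw [div_le_one hpi]; linarith⟩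
  have hθ : Real.pi * (θ : ℝ) = m + l := by
    show Real.pi * ((m + l) / Real.pi) = m + l
    field_simp
  have key : ∃ s : I, muf s θ = m := by
    have hc : Continuous (fun s : I => muf s θ) := by unfold muf; fun_prop
    have h0 : muf 0 θ ≤ m := by
      unfold muf
      rcases le_total (θ : ℝ) (1 / 2) with h | h
      · rw [max_eq_left (by linarith)]; simp; exact hm0
      · rw [max_eq_right (by linarith)]
        simp only [Set.Icc.coe_zero, zero_mul, add_zero]
        linarith
    have h1 : m ≤ muf 1 θ := by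
      unfold muf
      rcases le_total (θ : ℝ) (1 / 2) with h | h
      · rw [max_eq_left (by linarith), min_eq_left (by linarith)]
        simp only [Set.Icc.coe_one, one_mul, zero_add]
        linarith
      · rw [max_eq_right (by linarith), min_eq_right (by linarith)]
        simp only [Set.Icc.coe_one, one_mul]
        linarith
    exact intermediate_value_univ₂ (a := (0 : I)) (b := 1) hc
      (continuous_const (y := m)) h0 h1
  obtain ⟨s, hs⟩ := key
  refine ⟨s, θ, hs, ?_⟩
  unfold laf
  rw [hθ, hs]; ring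

end Pool.Agent.Helper5.Z2S
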