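import Pool.Agent.Helper90.Deg.Weights

/-!
# Interface of the disproof of multiplicativity of the 2-sphere (MP_bd7361_gt)

Only definitions and *statements* (as `Prop`s) of the modules.
-/

namespace Pool.Agent.Helper5.Z2S

open Pool.Agent.Helper90.Deg Metric Quaternion

/-- unit complex numbers -/
abbrev S1 : Type := sphere (0 : ℂ) 1

/-- the unit quaternion `i` -/
noncomputable def qi : S3 := cS ⟨Complex.I, by simp⟩

/-- the unit quaternion `j` -/
noncomputable def qj : S3 := ⟨toC.symm (0, 1), by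
  rw [mem_sphere_zero_iff_norm]
  have h := norm_toC (toC.symm ((0 : ℂ), (1 : ℂ)))
  rw [LinearEquiv.apply_symm_apply] at h
  simp only [norm_zero, norm_one] at h
  nlinarith [norm_nonneg (toC.symm ((0 : ℂ), (1 : ℂ)))]⟩

theorem toC_qi : toC (qi : ℍ[ℝ]) = (Complex.I, 0) := toC_cS _

theorem toC_qj : toC (qj : ℍ[ℝ]) = (0, 1) := by
  rw [qj, LinearEquiv.apply_symm_apply]

/-- the torus `T_X = S¹ × S¹` acting on `P_X = (S³)⁴ ∋ (p₀, p_U, p_V, p_W)` on the right -/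
noncomputable def actX (x y : S1) (p : Fin 4 → S3) : Fin 4 → S3 :=
  ![p 0 * cS ((x ^ 3)⁻¹ * y ^ 6), p 1 * cS x, p 2 * cS y, p 3 * cS (x ^ 2 * y)]

/-- the torus `T_Y = S¹ × S¹` acting on `P_Y = (S³)⁴ ∋ (r₀, r_U, r_V, r_W)` on the right, and the
circle `T_0` acting on `r₀` on the left -/
noncomputable def actY (ξ υ t : S1) (r : Fin 4 → S3) : Fin 4 → S3 :=
  ![cS t * r 0 * cS ((ξ ^ 6)⁻¹ * (υ ^ 3)⁻¹), r 1 * cS ξ, r 2 * cS υ, r 3 * cS (ξ * (υ ^ 2)⁻¹)]

/-- the map inducing the involution of `X` -/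
noncomputable def nuX (p : Fin 4 → S3) : Fin 4 → S3 := ![p 0, qi * p 1, qi * p 2, p 3]

/-- the map inducing the involution of `Y` -/
noncomputable def nuY (r : Fin 4 → S3) : Fin 4 → S3 := ![qj⁻¹ * r 0, qi * r 1, qi * r 2, r 3]

/-- MODULE G: the torus-equivariant map `(S³)³ → S³`. -/
def StmtG : Prop := ∃ G : C(S3 × S3 × S3, S3), ∀ (x y ξ υ : S1) (U V W : S3),
    G ((cS x)⁻¹ * U * cS ξ, (cS y)⁻¹ * V * cS υ, (cS (x ^ 2 * y))⁻¹ * W * cS (ξ * (υ ^ 2)⁻¹))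
      = cS (x ^ 3 * (y ^ 6)⁻¹) * G (U, V, W) * cS ((ξ ^ 6)⁻¹ * (υ ^ 3)⁻¹)

/-- MODULE N1: there is no equivariant map `X → S²` (`S²` = the unit quaternions of square `-1`). -/
def StmtNoX : Prop := ∀ f : C(Fin 4 → S3, S3), (∀ p, f p * f p = -1) →
    (∀ x y p, f (actX x y p) = f p) → (∀ p, f (nuX p) = -f p) → False

/-- MODULE N2: there is no equivariant map `Y → S²`. -/
def StmtNoY : Prop := ∀ f : C(Fin 4 → S3, S3), (∀ r, f r * f r = -1) →
    (∀ ξ υ t r, f (actY ξ υ t r) = f r) → (∀ r, f (nuY r) = -f r) → False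

/-- FINAL STATEMENT: two compact metrizable spaces with free involutions whose product maps
equivariantly to the 2-sphere, but neither of which does. -/
def StmtFinal : Prop :=
  ∃ (X Y : Type) (_ : TopologicalSpace X) (_ : TopologicalSpace Y) (νX : C(X, X)) (νY : C(Y, Y)),
    CompactSpace X ∧ T2Space X ∧ SecondCountableTopology X ∧
    CompactSpace Y ∧ T2Space Y ∧ SecondCountableTopology Y ∧
    (∀ x, νX (νX x) = x) ∧ (∀ x, νX x ≠ x) ∧ (∀ y, νY (νY y) = y) ∧ (∀ y, νY y ≠ y) ∧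
    (∃ F : C(X × Y, sphere (0 : EuclideanSpace ℝ (Fin 3)) 1),
      ∀ x y, F (νX x, νY y) = -F (x, y)) ∧
    (¬ ∃ f : C(X, sphere (0 : EuclideanSpace ℝ (Fin 3)) 1), ∀ x, f (νX x) = -f x) ∧
    (¬ ∃ f : C(Y, sphere (0 : EuclideanSpace ℝ (Fin 3)) 1), ∀ y, f (νY y) = -f y)

/-- MODULE S: assembly. -/
def StmtAssembly : Prop := StmtG → StmtNoX → StmtNoY → StmtFinal

end Pool.Agent.Helper5.Z2S
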