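import Pool.Agent.Helper5.Z2S.GFam
import Pool.Agent.Helper5.Z2S.Interface

/-!
# The homotopy of odd maps filling the square
-/

namespace Pool.Agent.Helper5.Z2S

open Complex unitInterval Metric Quaternion Pool.Agent.Helper90.Deg

/-! ### complex coordinates on `S3` -/

/-- complex coordinates -/
noncomputable def co (x : S3) : V := toC (x : ℍ[ℝ])

theorem continuous_toC : Continuous (toC : ℍ[ℝ] → ℂ × ℂ) :=
  LinearMap.continuous_of_finiteDimensional (toC : ℍ[ℝ] →ₗ[ℝ] ℂ × ℂ)

theorem continuous_toC_symm : Continuous (toC.symm : ℂ × ℂ → ℍ[ℝ]) :=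
  LinearMap.continuous_of_finiteDimensional (toC.symm : ℂ × ℂ →ₗ[ℝ] ℍ[ℝ])

theorem continuous_co : Continuous co := continuous_toC.comp continuous_subtype_val

theorem co_neg (x : S3) : co (-x) = -co x := by
  show toC (-(x : ℍ[ℝ])) = -toC (x : ℍ[ℝ])
  rw [map_neg]

theorem co_inj {x y : S3} (h : co x = co y) : x = y := S3_ext h

theorem co_ne (x : S3) : co x ≠ 0 := by
  intro h
  have h1 : (x : ℍ[ℝ]) = 0 := toC.map_eq_zero_iff.mp h
  have h2 := norm_coe x
  rw [h1, norm_zero] at h2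
  exact zero_ne_one h2

theorem co_mul (x y : S3) : co (x * y) =
    ((co x).1 * (co y).1 - (co x).2 * (starRingEnd ℂ) (co y).2,
      (co x).1 * (co y).2 + (co x).2 * (starRingEnd ℂ) (co y).1) := toC_mul _ _

/-! ### the space of odd nonvanishing maps -/

/-- the space of odd nowhere zero maps `S³ → ℂ²` -/
def Mo : Type := {M : C(S3, V) // (∀ W, M W ≠ 0) ∧ ∀ W, M (-W) = -M W}

noncomputable instance : TopologicalSpace Mo :=
  inferInstanceAs (TopologicalSpace {M : C(S3, V) // (∀ W, M W ≠ 0) ∧ ∀ W, M (-W) = -M W})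

theorem Mo.ext {M N : Mo} (h : ∀ W, M.1 W = N.1 W) : M = N :=
  Subtype.ext (ContinuousMap.ext h)

theorem Mo.continuous_val : Continuous (fun M : Mo => M.1) := continuous_subtype_val

/-- jointly continuous families of odd nonvanishing maps -/
structure Fam where
  /-- the family -/
  m : ℝ × ℝ → V → V
  /-- continuity -/
  cont : Continuous fun p : (ℝ × ℝ) × V => m p.1 p.2
  /-- nonvanishing -/
  ne : ∀ t v, v ≠ 0 → m t v ≠ 0
  /-- oddness -/
  neg : ∀ t v, m t (-v) = -m t v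

/-- the continuous map into the space of odd maps given by a family -/
noncomputable def Fam.map (F : Fam) : C(ℝ × ℝ, Mo) where
  toFun t := ⟨⟨fun W => F.m t (co W), F.cont.comp (continuous_const.prodMk continuous_co)⟩,
    fun W => F.ne _ _ (co_ne W), fun W => by
      show F.m t (co (-W)) = _
      rw [co_neg, F.neg]; rfl⟩
  continuous_toFun := Continuous.subtype_mk
    (ContinuousMap.curry (⟨fun p : (ℝ × ℝ) × S3 => F.m p.1 (co p.2),
      F.cont.comp (continuous_fst.prodMk (continuous_co.comp continuous_snd))⟩ :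
        C((ℝ × ℝ) × S3, V))).continuous _

theorem Fam.map_val (F : Fam) (t : ℝ × ℝ) (W : S3) : (F.map t).1 W = F.m t (co W) := rfl

/-- `Γ₁(μ,λ) = C O(e^{jμ} E(W) e^{-jλ})` -/
noncomputable def Ga1 : Fam where
  m t v := fC (fO (lj t.1 (rj (-t.2) (fE v))))
  cont := continuous_fC.comp (continuous_fO.comp (continuous_lj (by fun_prop)
    (continuous_rj (by fun_prop) (continuous_fE.comp (by fun_prop)))))
  ne t v h := fC_ne (fO_ne (lj_ne _ (rj_ne _ (fE_ne h))))
  neg t v := by rw [fE_neg, rj_neg, lj_neg, fO_neg, fC_neg]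

/-- `Γ₂(μ,λ) = C E(e^{jμ} O(W) e^{-jλ})` -/
noncomputable def Ga2 : Fam where
  m t v := fC (fE (lj t.1 (rj (-t.2) (fO v))))
  cont := continuous_fC.comp (continuous_fE.comp (continuous_lj (by fun_prop)
    (continuous_rj (by fun_prop) (continuous_fO.comp (by fun_prop)))))
  ne t v h := fC_ne (fE_ne (lj_ne _ (rj_ne _ (fO_ne h))))
  neg t v := by rw [fO_neg, rj_neg, lj_neg, fE_neg, fC_neg]

/-- `K(θ,τ)` -/
noncomputable def Kf : Fam where
  m t v := fC (rj (Real.pi / 2 - t.2) (fE (rj (-(Real.pi / 2))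
    (lj t.1 (rj (-t.1) (fE (rj t.2 v)))))))
  cont := continuous_fC.comp (continuous_rj (by fun_prop) (continuous_fE.comp
    (continuous_rj (by fun_prop) (continuous_lj (by fun_prop) (continuous_rj (by fun_prop)
      (continuous_fE.comp (continuous_rj (by fun_prop) (by fun_prop))))))))
  ne t v h := fC_ne (rj_ne _ (fE_ne (rj_ne _ (lj_ne _ (rj_ne _ (fE_ne (rj_ne _ h)))))))
  neg t v := by rw [rj_neg, fE_neg, rj_neg, lj_neg, rj_neg, fE_neg, rj_neg, fC_neg]

/-- `N(r,τ)` -/
noncomputable def Nf : Fam where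
  m t v := fC (rj (-t.2) (fk (kap t.1) (rj t.2 v)))
  cont := continuous_fC.comp (continuous_rj (by fun_prop) (continuous_fk
    (continuous_kap.comp (by fun_prop)) (continuous_rj (by fun_prop) (by fun_prop))))
  ne t v h := fC_ne (rj_ne _ (fk_ne (kap_ne_one _) (kap_ne_neg_one _) (rj_ne _ h)))
  neg t v := by rw [rj_neg, fk_neg, rj_neg, fC_neg]

/-- right multiplication by `e^{kρ}` -/
noncomputable def rk (t : ℝ) (v : V) : V := rq (Real.cos t : ℂ) (Complex.I * (Real.sin t : ℂ)) v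

theorem continuous_rk {X : Type*} [TopologicalSpace X] {t : X → ℝ} {v : X → V}
    (ht : Continuous t) (hv : Continuous v) : Continuous fun x => rk (t x) (v x) := by
  unfold rk
  exact continuous_rq (by fun_prop) (by fun_prop) hv

theorem rk_neg (t : ℝ) (v : V) : rk t (-v) = -rk t v := rq_neg _ _ _

theorem rk_ne (t : ℝ) {v : V} (h : v ≠ 0) : rk t v ≠ 0 := by
  apply rq_ne _ h
  rw [map_mul, normSq_ofReal, normSq_ofReal, normSq_I]
  nlinarith [Real.sin_sq_add_cos_sq t]

theorem rk_rk_neg (t : ℝ) (v : V) : rk (-t) (rk t v) = v := by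
  have h := cs_one t
  ext
  · simp only [rk, rq, Real.cos_neg, Real.sin_neg, ofReal_neg, map_mul, conj_ofReal, conj_I,
      map_neg]
    ring_nf
    rw [I_sq]
    linear_combination v.1 * h
  · simp only [rk, rq, Real.cos_neg, Real.sin_neg, ofReal_neg, map_mul, conj_ofReal, conj_I,
      map_neg]
    ring_nf
    rw [I_sq]
    linear_combination v.2 * h

theorem rk_zero (v : V) : rk 0 v = v := by
  ext <;> simp [rk, rq]

/-- `Z(ρ,φ)` -/
noncomputable def Zf : Fam where
  m t v := fC (rk (-t.1) (rj (-(t.2 / 2)) (rk t.1 (rj (-(t.2 / 2)) (fk 0 v)))))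
  cont := continuous_fC.comp (continuous_rk (by fun_prop) (continuous_rj (by fun_prop)
    (continuous_rk (by fun_prop) (continuous_rj (by fun_prop)
      (continuous_fk continuous_const (by fun_prop))))))
  ne t v h := fC_ne (rk_ne _ (rj_ne _ (rk_ne _ (rj_ne _ (fk_ne (by norm_num) (by norm_num) h)))))
  neg t v := by rw [fk_neg, rj_neg, rk_neg, rj_neg, rk_neg, fC_neg]

/-! ### identities between the families -/

theorem Kf_zero_right (θ : ℝ) (v : V) : Kf.m (θ, 0) v = Ga1.m (θ, θ) v := by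
  simp only [Kf, Ga1]
  rw [rj_zero, sub_zero, fO_eq]

theorem Kf_half_right (θ : ℝ) (v : V) : Kf.m (θ, Real.pi / 2) v = Ga2.m (θ, θ) v := by
  simp only [Kf, Ga2]
  rw [sub_self, rj_zero, rj_lj, rj_rj, add_comm, ← rj_rj, fO_eq']

theorem Ga_zero (v : V) : Ga1.m (0, 0) v = Ga2.m (0, 0) v := by
  simp only [Ga1, Ga2, neg_zero, rj_zero, lj_zero]
  simp [fO, fE, fC]

theorem Ga_half (v : V) : Ga1.m (Real.pi / 2, Real.pi / 2) v = Ga2.m (Real.pi / 2, Real.pi / 2) v := by
  simp only [Ga1, Ga2, lj_rj_half]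
  simp [fO, fE, fC, cc]

theorem Kf_zero_left (τ : ℝ) (v : V) : Kf.m (0, τ) v = Nf.m (0, τ) v := by
  simp only [Kf, Nf]
  rw [lj_zero, neg_zero, rj_zero, kap_zero, ← fk_three, rj_rj]
  congr 2
  ring

theorem Kf_half_left (τ : ℝ) (v : V) : Kf.m (Real.pi / 2, τ) v = Kf.m (0, τ) (cc v) := by
  simp only [Kf]
  rw [lj_rj_half, lj_zero, neg_zero, rj_zero]
  simp only [rj_cc, fE_cc]

theorem rj_half_half (v : V) : rj (Real.pi / 2) (rj (Real.pi / 2) v) = -v := by
  rw [rj_rj, add_halves]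
  ext <;> simp [rj]

/-- `f_κ` commutes with right multiplication by `j` -/
theorem fk_rj_half (k : ℂ) (v : V) : fk k (rj (Real.pi / 2) v) = rj (Real.pi / 2) (fk k v) := by
  ext
  · simp [fk, rj]; ring
  · simp [fk, rj]

theorem Nf_half_right (r : ℝ) (v : V) : Nf.m (r, Real.pi / 2) v = Nf.m (r, 0) v := by
  simp only [Nf]
  rw [fk_rj_half, rj_rj, neg_add_cancel, rj_zero, neg_zero, rj_zero, rj_zero]

theorem Nf_one (τ : ℝ) (v : V) : Nf.m (1, τ) v = Zf.m (0, 4 * τ) v := by
  simp only [Nf, Zf]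
  rw [kap_one, fk_zero_rj, rj_rj, neg_zero, rk_zero, rk_zero, rj_rj]
  congr 2
  ring

theorem Zf_half (φ : ℝ) (v : V) : Zf.m (Real.pi / 2, φ) v = Zf.m (0, 0) v := by
  simp only [Zf]
  have h : ∀ w : V, rk (-(Real.pi / 2)) (rj (-(φ / 2)) (rk (Real.pi / 2) (rj (-(φ / 2)) w))) = w := by
    intro w
    have h1 : ∀ u : V, rk (-(Real.pi / 2)) (rj (-(φ / 2)) (rk (Real.pi / 2) u)) = rj (φ / 2) u := by
      intro u
      ext
      · simp only [rk, rq, rj, Real.cos_neg, Real.sin_neg, Real.cos_pi_div_two,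
          Real.sin_pi_div_two, ofReal_zero, ofReal_one, ofReal_neg, map_mul, conj_I,
          map_neg, map_one, map_zero]
        ring_nf
        rw [I_sq]
        ring
      · simp only [rk, rq, rj, Real.cos_neg, Real.sin_neg, Real.cos_pi_div_two,
          Real.sin_pi_div_two, ofReal_zero, ofReal_one, ofReal_neg, map_mul, conj_I,
          map_neg, map_one, map_zero]
        ring_nf
        rw [I_sq]
        ring
    rw [h1, rj_rj, add_neg_cancel, rj_zero]
  rw [h]
  simp only [neg_zero, zero_div, rj_zero, rk_zero]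

theorem Zf_zero_right (ρ : ℝ) (v : V) : Zf.m (ρ, 0) v = Zf.m (0, 0) v := by
  simp only [Zf, zero_div, neg_zero, rj_zero, rk_zero, rk_rk_neg]

theorem rj_neg_pi (v : V) : rj (-Real.pi) v = -v := by
  ext <;> simp [rj]

theorem Zf_two_pi (ρ : ℝ) (v : V) : Zf.m (ρ, 2 * Real.pi) v = Zf.m (0, 0) v := by
  simp only [Zf]
  have e : -(2 * Real.pi / 2) = -Real.pi := by ring
  rw [e, rj_neg_pi, rj_neg_pi]
  simp only [rk_neg, neg_neg, rk_rk_neg]
  simp only [neg_zero, zero_div, rj_zero, rk_zero]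

end Pool.Agent.Helper5.Z2S
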