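import Mathlib

/-!
# Quotients of compact spaces by compact families of maps
-/

namespace Pool.Agent.Helper5.Z2S

open Topology

section

variable {P K : Type} [TopologicalSpace P] [TopologicalSpace K] [CompactSpace P] [T2Space P]
  [CompactSpace K] (s : Setoid P) (a : K → P → P) (ha : Continuous fun q : K × P => a q.1 q.2)
  (hs : ∀ p q, s p q ↔ ∃ k, a k p = q)

include ha hs

theorem isOpenMap_mk : IsOpenMap (Quotient.mk s) := by
  intro U hU
  rw [isOpen_coinduced]
  have e : Quotient.mk s ⁻¹' (Quotient.mk s '' U) = ⋃ k, (a k) ⁻¹' U := by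
    ext q
    simp only [Set.mem_preimage, Set.mem_image, Set.mem_iUnion]
    constructor
    · rintro ⟨p, hp, hpq⟩
      have h1 : s q p := s.symm (Quotient.exact hpq)
      obtain ⟨k, hk⟩ := (hs q p).mp h1
      exact ⟨k, by rw [hk]; exact hp⟩
    · rintro ⟨k, hk⟩
      refine ⟨a k q, hk, ?_⟩
      apply Quotient.sound
      exact s.symm ((hs q _).mpr ⟨k, rfl⟩)
  show IsOpen (Quotient.mk s ⁻¹' (Quotient.mk s '' U))
  rw [e]
  exact isOpen_iUnion fun k => hU.preimage (ha.comp (continuous_const.prodMk continuous_id))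

theorem isOpenQuotientMap_mk : IsOpenQuotientMap (Quotient.mk s) :=
  ⟨Quotient.mk_surjective, continuous_quotient_mk', isOpenMap_mk s a ha hs⟩

theorem t2_quot : T2Space (Quotient s) := by
  rw [t2Space_iff_of_isOpenQuotientMap (isOpenQuotientMap_mk s a ha hs)]
  have e : {q : P × P | Quotient.mk s q.1 = Quotient.mk s q.2} =
      Set.range (fun x : K × P => (x.2, a x.1 x.2)) := by
    ext ⟨p, q⟩
    simp only [Set.mem_ofPred_eq, Set.mem_range, Prod.mk.injEq, Prod.exists]
    rw [Quotient.eq]
    constructor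
    · intro h
      obtain ⟨k, hk⟩ := (hs p q).mp h
      exact ⟨k, p, rfl, hk⟩
    · rintro ⟨k, p', h1, h2⟩
      subst h1
      exact (hs p' q).mpr ⟨k, h2⟩
  rw [e]
  exact (isCompact_range (continuous_snd.prodMk ha)).isClosed

theorem sc_quot [SecondCountableTopology P] : SecondCountableTopology (Quotient s) :=
  (isOpenQuotientMap_mk s a ha hs).isQuotientMap.secondCountableTopology
    (isOpenMap_mk s a ha hs)

end

end Pool.Agent.Helper5.Z2S
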