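import Pool.Agent.Helper5.Z2S.GFinal
import Pool.Agent.Helper5.Z2S.SQuot

/-!
# The spaces `X`, `Y` and the map `F`
-/

namespace Pool.Agent.Helper5.Z2S

open Metric Quaternion Pool.Agent.Helper90.Deg Topology

/-- the total space `(S³)⁴` -/
abbrev PP : Type := Fin 4 → S3

/-- `(p₀,p₁,p₂,p₃) ↦ (p₀,-p₁,-p₂,p₃)` -/
noncomputable def sg (p : PP) : PP := ![p 0, -p 1, -p 2, p 3]

/-- the sign flip controlled by a Boolean -/
noncomputable def sgb (b : Bool) (p : PP) : PP := if b then sg p else p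

theorem sg_sg (p : PP) : sg (sg p) = p := by
  funext i; fin_cases i <;> simp [sg]

theorem sgb_sgb (b c : Bool) (p : PP) : sgb b (sgb c p) = sgb (xor b c) p := by
  cases b <;> cases c <;> simp [sgb, sg_sg]

theorem continuous_vec4 {X : Type*} [TopologicalSpace X] {a b c d : X → S3} (ha : Continuous a)
    (hb : Continuous b) (hc : Continuous c) (hd : Continuous d) :
    Continuous fun x => (![a x, b x, c x, d x] : PP) := by
  apply continuous_pi
  intro i
  fin_cases i <;> simpa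

theorem continuous_sg : Continuous sg :=
  continuous_vec4 (by fun_prop) (by fun_prop) (by fun_prop) (by fun_prop)

theorem continuous_sgb : Continuous fun q : Bool × PP => sgb q.1 q.2 := by
  rw [continuous_prod_of_discrete_left]
  intro b
  cases b
  · exact continuous_id
  · exact continuous_sg

theorem actX_actX (x y x' y' : S1) (p : PP) :
    actX x y (actX x' y' p) = actX (x' * x) (y' * y) p := by
  have e1 : (x' ^ 3)⁻¹ * y' ^ 6 * ((x ^ 3)⁻¹ * y ^ 6) = ((x' * x) ^ 3)⁻¹ * (y' * y) ^ 6 := by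
    rw [mul_pow, mul_pow, mul_inv, mul_mul_mul_comm]
  have e2 : x' ^ 2 * y' * (x ^ 2 * y) = (x' * x) ^ 2 * (y' * y) := by
    rw [mul_pow, mul_mul_mul_comm]
  funext i
  fin_cases i
  · simp [actX, mul_assoc, ← cS_mul, ← e1]
  · simp [actX, mul_assoc, ← cS_mul]
  · simp [actX, mul_assoc, ← cS_mul]
  · simp [actX, mul_assoc, ← cS_mul, ← e2]

theorem actX_one (p : PP) : actX 1 1 p = p := by
  funext i; fin_cases i <;> simp [actX, cS_one]

theorem S3_neg_mul (x y : S3) : -x * y = -(x * y) := by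
  apply Subtype.ext; simp

theorem S3_mul_neg (x y : S3) : x * -y = -(x * y) := by
  apply Subtype.ext; simp

theorem S3_neg_neg (x : S3) : - -x = x := by
  apply Subtype.ext; simp

theorem actX_sg (x y : S1) (p : PP) : actX x y (sg p) = sg (actX x y p) := by
  funext i; fin_cases i <;> simp [actX, sg, S3_neg_mul]

theorem actX_sgb (x y : S1) (b : Bool) (p : PP) : actX x y (sgb b p) = sgb b (actX x y p) := by
  cases b
  · simp [sgb]
  · simp [sgb, actX_sg]

theorem actX_nuX (x y : S1) (p : PP) : actX x y (nuX p) = nuX (actX x y p) := by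
  funext i; fin_cases i <;> simp [actX, nuX, mul_assoc]

theorem sg_nuX (p : PP) : sg (nuX p) = nuX (sg p) := by
  funext i; fin_cases i <;> simp [sg, nuX, S3_mul_neg]

theorem co_qi : co qi = (Complex.I, 0) := toC_qi

theorem qi_qi : qi * qi = -1 := by
  apply co_inj
  rw [co_mul, co_qi, co_neg]
  have h1 : co (1 : S3) = (1, 0) := toC_one
  rw [h1]
  ext <;> simp

theorem qi_mul_qi_mul (x : S3) : qi * (qi * x) = -x := by
  rw [← mul_assoc, qi_qi, S3_m1_mul]

theorem nuX_nuX (p : PP) : nuX (nuX p) = sg p := by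
  funext i; fin_cases i <;> simp [sg, nuX, qi_mul_qi_mul]

/-- the family of maps defining `X` -/
noncomputable def aX (k : (S1 × S1) × Bool) (p : PP) : PP := actX k.1.1 k.1.2 (sgb k.2 p)

theorem continuous_actX : Continuous fun q : (S1 × S1) × PP => actX q.1.1 q.1.2 q.2 := by
  have c2 : Continuous fun q : (S1 × S1) × PP => cS ((q.1.1 ^ 3)⁻¹ * q.1.2 ^ 6) :=
    continuous_cS.comp (by fun_prop)
  have c3 : Continuous fun q : (S1 × S1) × PP => cS q.1.1 :=
    continuous_cS.comp (by fun_prop)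
  have c4 : Continuous fun q : (S1 × S1) × PP => cS q.1.2 :=
    continuous_cS.comp (by fun_prop)
  have c5 : Continuous fun q : (S1 × S1) × PP => cS (q.1.1 ^ 2 * q.1.2) :=
    continuous_cS.comp (by fun_prop)
  have d : ∀ i, Continuous fun q : (S1 × S1) × PP => q.2 i := fun i => by fun_prop
  exact continuous_vec4 ((d 0).mul c2) ((d 1).mul c3) ((d 2).mul c4) ((d 3).mul c5)

theorem continuous_aX : Continuous fun q : ((S1 × S1) × Bool) × PP => aX q.1 q.2 := by
  have h : Continuous fun q : ((S1 × S1) × Bool) × PP => (q.1.1, sgb q.1.2 q.2) :=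
    (by fun_prop : Continuous fun q : ((S1 × S1) × Bool) × PP => q.1.1).prodMk
      (continuous_sgb.comp (by fun_prop : Continuous fun q : ((S1 × S1) × Bool) × PP => (q.1.2, q.2)))
  have h2 := continuous_actX.comp h
  rw [Function.comp_def] at h2
  unfold aX
  exact h2

theorem aX_aX (k l : (S1 × S1) × Bool) (p : PP) :
    aX k (aX l p) = aX ((l.1.1 * k.1.1, l.1.2 * k.1.2), xor k.2 l.2) p := by
  unfold aX
  rw [← actX_sgb, sgb_sgb, actX_actX]

/-- the equivalence relation defining `X` -/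
def sX : Setoid PP where
  r p q := ∃ k, aX k p = q
  iseqv := by
    refine ⟨?_, ?_, ?_⟩
    · intro p
      exact ⟨((1, 1), false), by simp [aX, sgb, actX_one]⟩
    · rintro p q ⟨k, rfl⟩
      refine ⟨((k.1.1⁻¹, k.1.2⁻¹), k.2), ?_⟩
      rw [aX_aX]
      simp [aX, sgb, actX_one]
    · rintro p q r ⟨k, rfl⟩ ⟨l, rfl⟩
      exact ⟨_, (aX_aX l k p).symm⟩

theorem sX_iff (p q : PP) : sX p q ↔ ∃ k, aX k p = q := Iff.rfl

/-- the space `X` -/
abbrev XX : Type := Quotient sX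

/-! ### Y -/

theorem actY_actY (ξ υ t ξ' υ' t' : S1) (p : PP) :
    actY ξ υ t (actY ξ' υ' t' p) = actY (ξ' * ξ) (υ' * υ) (t * t') p := by
  have e1 : (ξ' ^ 6)⁻¹ * (υ' ^ 3)⁻¹ * ((ξ ^ 6)⁻¹ * (υ ^ 3)⁻¹) =
      ((ξ' * ξ) ^ 6)⁻¹ * ((υ' * υ) ^ 3)⁻¹ := by
    rw [mul_pow, mul_pow, mul_inv, mul_inv, mul_mul_mul_comm]
  have e2 : ξ' * (υ' ^ 2)⁻¹ * (ξ * (υ ^ 2)⁻¹) = ξ' * ξ * ((υ' * υ) ^ 2)⁻¹ := by
    rw [mul_pow, mul_inv, mul_mul_mul_comm]
  funext i
  fin_cases i
  · simp only [actY, Fin.zero_eta, Matrix.cons_val_zero]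
    rw [← e1, cS_mul t t', cS_mul ((ξ' ^ 6)⁻¹ * (υ' ^ 3)⁻¹) ((ξ ^ 6)⁻¹ * (υ ^ 3)⁻¹)]
    simp only [mul_assoc]
  · simp [actY, mul_assoc, ← cS_mul]
  · simp [actY, mul_assoc, ← cS_mul]
  · simp [actY, mul_assoc, ← cS_mul, ← e2]

theorem actY_one (p : PP) : actY 1 1 1 p = p := by
  funext i; fin_cases i <;> simp [actY, cS_one]

theorem actY_sg (ξ υ t : S1) (p : PP) : actY ξ υ t (sg p) = sg (actY ξ υ t p) := by
  funext i; fin_cases i <;> simp [actY, sg, S3_neg_mul]

theorem actY_sgb (ξ υ t : S1) (b : Bool) (p : PP) :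
    actY ξ υ t (sgb b p) = sgb b (actY ξ υ t p) := by
  cases b
  · simp [sgb]
  · simp [sgb, actY_sg]

theorem qj_cS (t : S1) : qj⁻¹ * cS t = cS t⁻¹ * qj⁻¹ := by
  apply co_inj
  rw [co_mul, co_mul, co_inv, co_qj, co_cS, co_cS]
  ext
  · simp
  · simp [conj_S1]

/-- left multiplication by `j⁻¹` intertwines -/
theorem actY_nuY (ξ υ t : S1) (p : PP) : actY ξ υ t⁻¹ (nuY p) = nuY (actY ξ υ t p) := by
  funext i
  fin_cases i
  · simp only [actY, nuY, Fin.zero_eta, Matrix.cons_val_zero]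
    rw [← mul_assoc, ← mul_assoc, ← mul_assoc, qj_cS]
  · simp [actY, nuY, mul_assoc]
  · simp [actY, nuY, mul_assoc]
  · simp [actY, nuY, mul_assoc]

theorem sg_nuY (p : PP) : sg (nuY p) = nuY (sg p) := by
  funext i; fin_cases i <;> simp [sg, nuY, S3_mul_neg]

theorem qj_qj_mul (x : S3) : qj⁻¹ * (qj⁻¹ * x) = cS (-1) * x := by
  rw [← mul_assoc]
  congr 1
  apply co_inj
  rw [co_mul, co_inv, co_qj, co_cS]
  ext <;> simp

theorem nuY_nuY (p : PP) : nuY (nuY p) = actY 1 1 (-1) (sg p) := by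
  funext i; fin_cases i <;> simp [sg, nuY, actY, qi_mul_qi_mul, qj_qj_mul, cS_one]

/-- the family of maps defining `Y` -/
noncomputable def aY (k : (S1 × S1 × S1) × Bool) (p : PP) : PP :=
  actY k.1.1 k.1.2.1 k.1.2.2 (sgb k.2 p)

theorem continuous_actY : Continuous fun q : (S1 × S1 × S1) × PP => actY q.1.1 q.1.2.1 q.1.2.2 q.2 := by
  have c1 : Continuous fun q : (S1 × S1 × S1) × PP => cS q.1.2.2 :=
    continuous_cS.comp (by fun_prop)
  have c2 : Continuous fun q : (S1 × S1 × S1) × PP => cS ((q.1.1 ^ 6)⁻¹ * (q.1.2.1 ^ 3)⁻¹) :=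
    continuous_cS.comp (by fun_prop)
  have c3 : Continuous fun q : (S1 × S1 × S1) × PP => cS q.1.1 :=
    continuous_cS.comp (by fun_prop)
  have c4 : Continuous fun q : (S1 × S1 × S1) × PP => cS q.1.2.1 :=
    continuous_cS.comp (by fun_prop)
  have c5 : Continuous fun q : (S1 × S1 × S1) × PP => cS (q.1.1 * (q.1.2.1 ^ 2)⁻¹) :=
    continuous_cS.comp (by fun_prop)
  have d : ∀ i, Continuous fun q : (S1 × S1 × S1) × PP => q.2 i := fun i => by fun_prop
  exact continuous_vec4 ((c1.mul (d 0)).mul c2) ((d 1).mul c3) ((d 2).mul c4) ((d 3).mul c5)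

theorem continuous_aY : Continuous fun q : ((S1 × S1 × S1) × Bool) × PP => aY q.1 q.2 := by
  have h : Continuous fun q : ((S1 × S1 × S1) × Bool) × PP => (q.1.1, sgb q.1.2 q.2) :=
    (by fun_prop : Continuous fun q : ((S1 × S1 × S1) × Bool) × PP => q.1.1).prodMk
      (continuous_sgb.comp
        (by fun_prop : Continuous fun q : ((S1 × S1 × S1) × Bool) × PP => (q.1.2, q.2)))
  have h2 := continuous_actY.comp h
  rw [Function.comp_def] at h2
  unfold aY
  exact h2

theorem aY_aY (k l : (S1 × S1 × S1) × Bool) (p : PP) :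
    aY k (aY l p) = aY ((l.1.1 * k.1.1, l.1.2.1 * k.1.2.1, k.1.2.2 * l.1.2.2), xor k.2 l.2) p := by
  unfold aY
  rw [← actY_sgb, sgb_sgb, actY_actY]

/-- the equivalence relation defining `Y` -/
def sY : Setoid PP where
  r p q := ∃ k, aY k p = q
  iseqv := by
    refine ⟨?_, ?_, ?_⟩
    · intro p
      exact ⟨((1, 1, 1), false), by simp [aY, sgb, actY_one]⟩
    · rintro p q ⟨k, rfl⟩
      refine ⟨((k.1.1⁻¹, k.1.2.1⁻¹, k.1.2.2⁻¹), k.2), ?_⟩
      rw [aY_aY]
      simp [aY, sgb, actY_one]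
    · rintro p q r ⟨k, rfl⟩ ⟨l, rfl⟩
      exact ⟨_, (aY_aY l k p).symm⟩

/-- the space `Y` -/
abbrev YY : Type := Quotient sY

end Pool.Agent.Helper5.Z2S
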