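import Pool.Agent.Helper5.Z2S.SAct
import Pool.Agent.Helper90.Lift.NoMaps

/-!
# Assembly: the 2-sphere is not multiplicative
-/

namespace Pool.Agent.Helper5.Z2S

open Metric Quaternion Pool.Agent.Helper90.Deg Topology

/-! ### topology of the orbit spaces -/

theorem oX : IsOpenQuotientMap (Quotient.mk sX) :=
  isOpenQuotientMap_mk sX aX continuous_aX fun _ _ => Iff.rfl

theorem oY : IsOpenQuotientMap (Quotient.mk sY) :=
  isOpenQuotientMap_mk sY aY continuous_aY fun _ _ => Iff.rfl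

instance : T2Space XX := t2_quot sX aX continuous_aX fun _ _ => Iff.rfl
instance : T2Space YY := t2_quot sY aY continuous_aY fun _ _ => Iff.rfl
instance : SecondCountableTopology XX := sc_quot sX aX continuous_aX fun _ _ => Iff.rfl
instance : SecondCountableTopology YY := sc_quot sY aY continuous_aY fun _ _ => Iff.rfl
instance : CompactSpace XX := inferInstance
instance : CompactSpace YY := inferInstance

/-! ### the involutions -/

theorem sgb_nuX (b : Bool) (p : PP) : sgb b (nuX p) = nuX (sgb b p) := by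
  cases b
  · simp [sgb]
  · simp [sgb, sg_nuX]

theorem sgb_nuY (b : Bool) (p : PP) : sgb b (nuY p) = nuY (sgb b p) := by
  cases b
  · simp [sgb]
  · simp [sgb, sg_nuY]

theorem aX_nuX (k : (S1 × S1) × Bool) (p : PP) : aX k (nuX p) = nuX (aX k p) := by
  unfold aX
  rw [sgb_nuX, actX_nuX]

theorem aY_nuY (k : (S1 × S1 × S1) × Bool) (p : PP) :
    aY ((k.1.1, k.1.2.1, k.1.2.2⁻¹), k.2) (nuY p) = nuY (aY k p) := by
  unfold aY
  simp only
  rw [sgb_nuY, actY_nuY]

theorem continuous_nuX : Continuous nuX := by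
  unfold nuX
  exact continuous_vec4 (by fun_prop) (by fun_prop) (by fun_prop) (by fun_prop)

theorem continuous_nuY : Continuous nuY := by
  unfold nuY
  exact continuous_vec4 (by fun_prop) (by fun_prop) (by fun_prop) (by fun_prop)

/-- the involution of `X` -/
noncomputable def invX : C(XX, XX) where
  toFun := Quotient.map nuX (by
    rintro p q ⟨k, rfl⟩
    exact ⟨k, aX_nuX k p⟩)
  continuous_toFun := by
    rw [oX.isQuotientMap.continuous_iff]
    exact continuous_quotient_mk'.comp continuous_nuX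

/-- the involution of `Y` -/
noncomputable def invY : C(YY, YY) where
  toFun := Quotient.map nuY (by
    rintro p q ⟨k, rfl⟩
    exact ⟨_, aY_nuY k p⟩)
  continuous_toFun := by
    rw [oY.isQuotientMap.continuous_iff]
    exact continuous_quotient_mk'.comp continuous_nuY

theorem invX_mk (p : PP) : invX (Quotient.mk sX p) = Quotient.mk sX (nuX p) := rfl
theorem invY_mk (p : PP) : invY (Quotient.mk sY p) = Quotient.mk sY (nuY p) := rfl

theorem invX_invX (x : XX) : invX (invX x) = x := by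
  induction x using Quotient.inductionOn with
  | h p =>
    rw [invX_mk, invX_mk, nuX_nuX]
    refine Quotient.sound (sX.symm ?_)
    exact ⟨((1, 1), true), by simp [aX, sgb, actX_one]⟩

theorem invY_invY (y : YY) : invY (invY y) = y := by
  induction y using Quotient.inductionOn with
  | h p =>
    rw [invY_mk, invY_mk, nuY_nuY]
    refine Quotient.sound (sY.symm ?_)
    exact ⟨((1, 1, -1), true), by simp [aY, sgb]⟩

theorem cS_inj {x y : S1} (h : cS x = cS y) : x = y := by
  have := congrArg co h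
  rw [co_cS, co_cS, Prod.mk.injEq] at this
  exact Subtype.ext this.1

theorem sq_cS_of {x : S1} {p : S3} (h : p * cS x = qi * p ∨ -p * cS x = qi * p) :
    x * x = -1 := by
  have h1 : cS x * cS x = -1 := by
    rcases h with h | h
    · have h2 : cS x = p⁻¹ * (qi * p) := by rw [← h]; group
      calc cS x * cS x = p⁻¹ * (qi * qi) * p := by rw [h2]; group
        _ = -1 := by rw [qi_qi, S3_mul_m1, S3_neg_mul, inv_mul_cancel]
    · have h2 : cS x = -(p⁻¹ * (qi * p)) := by
        rw [← h, S3_neg_mul, S3_mul_neg, S3_neg_neg]; group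
      calc cS x * cS x = p⁻¹ * (qi * qi) * p := by
            rw [h2, S3_neg_mul, S3_mul_neg, S3_neg_neg]; group
        _ = -1 := by rw [qi_qi, S3_mul_m1, S3_neg_mul, inv_mul_cancel]
  apply cS_inj
  rw [cS_mul, h1, cS_neg_one]

theorem sgb_apply (b : Bool) (p : PP) : sgb b p 0 = p 0 ∧ (sgb b p 1 = p 1 ∨ sgb b p 1 = -p 1) ∧
    (sgb b p 2 = p 2 ∨ sgb b p 2 = -p 2) ∧ sgb b p 3 = p 3 := by
  cases b
  · simp [sgb]
  · simp [sgb, sg]

theorem S1_neg_mul (x y : S1) : -x * y = -(x * y) := by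
  apply Subtype.ext; simp

theorem m1_ne_one : (-1 : S1) ≠ 1 := by
  intro h
  have := congrArg (fun x : S1 => (x : ℂ)) h
  simp at this
  norm_num at this

theorem invX_ne (x : XX) : invX x ≠ x := by
  induction x using Quotient.inductionOn with
  | h p =>
    rw [invX_mk]
    intro h
    obtain ⟨⟨⟨x, y⟩, b⟩, hk⟩ := sX.symm (Quotient.exact h)
    obtain ⟨s0, s1, s2, s3⟩ := sgb_apply b p
    have k0 := congrFun hk 0
    have k1 := congrFun hk 1
    have k3 := congrFun hk 3
    simp only [aX, actX, nuX, Matrix.cons_val_zero, Matrix.cons_val_one, Matrix.cons_val] at k0 k1 k3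
    rw [s0] at k0
    rw [s3] at k3
    have e0 : (x ^ 3)⁻¹ * y ^ 6 = 1 := by
      apply cS_inj; rw [cS_one]; exact mul_eq_left.mp k0
    have e3 : x ^ 2 * y = 1 := by
      apply cS_inj; rw [cS_one]; exact mul_eq_left.mp k3
    have e1 : x * x = -1 := by
      rcases s1 with h1 | h1
      · rw [h1] at k1; exact sq_cS_of (Or.inl k1)
      · rw [h1] at k1; exact sq_cS_of (Or.inr k1)
    -- y = -1, so x^3 = 1
    have hy : y = -1 := by
      rw [pow_two, e1, S1_neg_mul, one_mul] at e3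
      rw [← neg_neg y, e3]
    rw [hy, m1_six, mul_one] at e0
    have h4 : x ^ 3 = 1 := inv_eq_one.mp e0
    have h5 : x ^ 3 = -x := by rw [pow_succ, pow_two, e1, S1_neg_mul, one_mul]
    rw [h4] at h5
    have h6 : x = -1 := by rw [h5, neg_neg]
    rw [h6, ← pow_two, m1_sq] at e1
    exact m1_ne_one e1.symm

theorem invY_ne (y : YY) : invY y ≠ y := by
  induction y using Quotient.inductionOn with
  | h p =>
    rw [invY_mk]
    intro h
    obtain ⟨⟨⟨ξ, υ, t⟩, b⟩, hk⟩ := sY.symm (Quotient.exact h)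
    obtain ⟨s0, s1, s2, s3⟩ := sgb_apply b p
    have k1 := congrFun hk 1
    have k2 := congrFun hk 2
    have k3 := congrFun hk 3
    simp only [aY, actY, nuY, Matrix.cons_val_one, Matrix.cons_val] at k1 k2 k3
    rw [s3] at k3
    have e3 : ξ * (υ ^ 2)⁻¹ = 1 := by
      apply cS_inj; rw [cS_one]; exact mul_eq_left.mp k3
    have e1 : ξ * ξ = -1 := by
      rcases s1 with h1 | h1
      · rw [h1] at k1; exact sq_cS_of (Or.inl k1)
      · rw [h1] at k1; exact sq_cS_of (Or.inr k1)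
    have e2 : υ * υ = -1 := by
      rcases s2 with h1 | h1
      · rw [h1] at k2; exact sq_cS_of (Or.inl k2)
      · rw [h1] at k2; exact sq_cS_of (Or.inr k2)
    rw [pow_two, e2] at e3
    have h6 : ξ = -1 := by
      have := mul_eq_one_iff_eq_inv.mp e3
      rw [this, inv_inv]
    rw [h6, ← pow_two, m1_sq] at e1
    exact m1_ne_one e1.symm

/-! ### the 2-sphere -/

/-- the standard 2-sphere -/
abbrev Sph : Type := sphere (0 : EuclideanSpace ℝ (Fin 3)) 1

theorem normSq_S3 (q : S3) : (q : ℍ[ℝ]).re ^ 2 + (q : ℍ[ℝ]).imI ^ 2 + (q : ℍ[ℝ]).imJ ^ 2 +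
    (q : ℍ[ℝ]).imK ^ 2 = 1 := by
  rw [← Quaternion.normSq_def', Quaternion.normSq_eq_norm_mul_self,
    mem_sphere_zero_iff_norm.mp q.2, one_mul]

theorem re_eq_zero {q : S3} (h : q * q = -1) : (q : ℍ[ℝ]).re = 0 := by
  have h1 : (q : ℍ[ℝ]) * (q : ℍ[ℝ]) = -1 := congrArg Subtype.val h
  have h2 := congrArg (fun z : ℍ[ℝ] => z.re) h1
  have h3 := normSq_S3 q
  simp only [Quaternion.re_mul, Quaternion.re_neg, Quaternion.re_one] at h2
  nlinarith

/-- from pure unit quaternions to the standard sphere -/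
noncomputable def toSph (q : S3) (h : q * q = -1) : Sph :=
  ⟨!₂[(q : ℍ[ℝ]).imI, (q : ℍ[ℝ]).imJ, (q : ℍ[ℝ]).imK], by
    rw [mem_sphere_zero_iff_norm, EuclideanSpace.norm_eq, Real.sqrt_eq_one]
    have h1 := normSq_S3 q
    rw [re_eq_zero h] at h1
    simp [Fin.sum_univ_three]
    linarith⟩

/-- from the standard sphere to pure unit quaternions -/
noncomputable def fromSph (v : Sph) : S3 :=
  ⟨toC.symm ((⟨0, (v : EuclideanSpace ℝ (Fin 3)) 0⟩ : ℂ),
    (⟨(v : EuclideanSpace ℝ (Fin 3)) 1, (v : EuclideanSpace ℝ (Fin 3)) 2⟩ : ℂ)), by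
    rw [mem_sphere_zero_iff_norm]
    have h := norm_toC (toC.symm ((⟨0, (v : EuclideanSpace ℝ (Fin 3)) 0⟩ : ℂ),
      (⟨(v : EuclideanSpace ℝ (Fin 3)) 1, (v : EuclideanSpace ℝ (Fin 3)) 2⟩ : ℂ)))
    rw [LinearEquiv.apply_symm_apply] at h
    have h2 := mem_sphere_zero_iff_norm.mp v.2
    rw [EuclideanSpace.norm_eq, Real.sqrt_eq_one] at h2
    simp only [Fin.sum_univ_three, Real.norm_eq_abs, sq_abs] at h2
    rw [← Complex.normSq_eq_norm_sq, ← Complex.normSq_eq_norm_sq, Complex.normSq_mk,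
      Complex.normSq_mk] at h
    have h0 := norm_nonneg (toC.symm ((⟨0, (v : EuclideanSpace ℝ (Fin 3)) 0⟩ : ℂ),
      (⟨(v : EuclideanSpace ℝ (Fin 3)) 1, (v : EuclideanSpace ℝ (Fin 3)) 2⟩ : ℂ)))
    nlinarith⟩

theorem co_fromSph (v : Sph) : co (fromSph v) = ((⟨0, (v : EuclideanSpace ℝ (Fin 3)) 0⟩ : ℂ),
    (⟨(v : EuclideanSpace ℝ (Fin 3)) 1, (v : EuclideanSpace ℝ (Fin 3)) 2⟩ : ℂ)) := by
  rw [co, fromSph, LinearEquiv.apply_symm_apply]

theorem fromSph_sq (v : Sph) : fromSph v * fromSph v = -1 := by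
  have h2 := mem_sphere_zero_iff_norm.mp v.2
  rw [EuclideanSpace.norm_eq, Real.sqrt_eq_one] at h2
  simp only [Fin.sum_univ_three, Real.norm_eq_abs, sq_abs] at h2
  apply co_inj
  rw [co_mul, co_fromSph, co_neg]
  have h1 : co (1 : S3) = (1, 0) := toC_one
  rw [h1]
  refine Prod.ext (Complex.ext ?_ ?_) (Complex.ext ?_ ?_)
  · simp; nlinarith
  · simp; ring
  · simp; ring
  · simp; ring

theorem fromSph_neg (v : Sph) : fromSph (-v) = -fromSph v := by
  apply co_inj
  rw [co_fromSph, co_neg, co_fromSph]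
  refine Prod.ext (Complex.ext ?_ ?_) (Complex.ext ?_ ?_) <;> simp

theorem continuous_fromSph : Continuous fromSph := by
  refine Continuous.subtype_mk (continuous_toC_symm.comp ?_) _
  have hv : ∀ i, Continuous fun v : Sph => (v : EuclideanSpace ℝ (Fin 3)) i := by
    intro i; fun_prop
  have hc : ∀ (f g : Sph → ℝ), Continuous f → Continuous g →
      Continuous fun v => (⟨f v, g v⟩ : ℂ) := by
    intro f g hf hg
    have e : (fun v => (⟨f v, g v⟩ : ℂ)) = fun v => ((f v : ℂ) + (g v : ℂ) * Complex.I) := by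
      funext v; apply Complex.ext <;> simp
    rw [e]; fun_prop
  exact (hc _ _ continuous_const (hv 0)).prodMk (hc _ _ (hv 1) (hv 2))

theorem toSph_neg {q : S3} (h : q * q = -1) (h' : -q * -q = -1) :
    toSph (-q) h' = -toSph q h := by
  apply Subtype.ext
  ext i
  fin_cases i <;> simp [toSph]

theorem continuous_toSph {X : Type*} [TopologicalSpace X] {f : X → S3} (hf : Continuous f)
    (h : ∀ x, f x * f x = -1) : Continuous fun x => toSph (f x) (h x) := by
  refine Continuous.subtype_mk ?_ _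
  have h1 : Continuous fun x => ((f x : S3) : ℍ[ℝ]) := continuous_subtype_val.comp hf
  have hI : Continuous fun x => ((f x : S3) : ℍ[ℝ]).imI := Quaternion.continuous_imI.comp h1
  have hJ : Continuous fun x => ((f x : S3) : ℍ[ℝ]).imJ := Quaternion.continuous_imJ.comp h1
  have hK : Continuous fun x => ((f x : S3) : ℍ[ℝ]).imK := Quaternion.continuous_imK.comp h1
  refine (PiLp.continuous_toLp 2 _).comp ?_
  apply continuous_pi
  intro i
  fin_cases i
  · exact hI
  · exact hJ
  · exact hK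

/-! ### the map `F` -/

section F

variable (G : C(S3 × S3 × S3, S3)) (hG : ∀ (x y ξ υ : S1) (U V W : S3),
    G ((cS x)⁻¹ * U * cS ξ, (cS y)⁻¹ * V * cS υ, (cS (x ^ 2 * y))⁻¹ * W * cS (ξ * (υ ^ 2)⁻¹))
      = cS (x ^ 3 * (y ^ 6)⁻¹) * G (U, V, W) * cS ((ξ ^ 6)⁻¹ * (υ ^ 3)⁻¹))

include hG in
theorem G_neg1 (U V W : S3) : G (-U, V, W) = -G (U, V, W) := by
  have h := hG (-1) 1 1 1 U V W
  simp only [one_pow, inv_one, mul_one, cS_one, cS_neg_one, m1_sq, m1_cube, one_mul, S3_m1_mul] at h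
  have e : (-1 : S3)⁻¹ = -1 := by
    rw [← cS_neg_one, ← cS_inv, m1_inv]
  rw [e, S3_m1_mul] at h
  exact h

include hG in
theorem G_neg2 (U V W : S3) : G (U, -V, W) = -G (U, V, W) := by
  have h := hG 1 1 1 (-1) U V W
  simp only [one_pow, inv_one, mul_one, cS_one, cS_neg_one, m1_sq, m1_cube, one_mul, S3_mul_m1,
    m1_inv] at h
  exact h

/-- the lift of `F` -/
noncomputable def Ft (p r : PP) : S3 :=
  p 0 * G ((p 1)⁻¹ * r 1, (p 2)⁻¹ * r 2, (p 3)⁻¹ * r 3) * (r 0)⁻¹

theorem continuous_Ft : Continuous fun q : PP × PP => Ft G q.1 q.2 := by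
  unfold Ft
  have h : Continuous fun q : PP × PP =>
      (((q.1 1)⁻¹ * q.2 1, (q.1 2)⁻¹ * q.2 2, (q.1 3)⁻¹ * q.2 3) : S3 × S3 × S3) := by fun_prop
  have h2 := G.continuous.comp h
  rw [Function.comp_def] at h2
  have h3 : Continuous fun q : PP × PP => q.1 0 := by fun_prop
  have h4 : Continuous fun q : PP × PP => (q.2 0)⁻¹ := by fun_prop
  exact (h3.mul h2).mul h4

include hG in
theorem Ft_actX (x y : S1) (p r : PP) : Ft G (actX x y p) r = Ft G p r := by
  unfold Ft
  simp only [actX, Matrix.cons_val_zero, Matrix.cons_val_one, Matrix.cons_val]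
  have h := hG x y 1 1 ((p 1)⁻¹ * r 1) ((p 2)⁻¹ * r 2) ((p 3)⁻¹ * r 3)
  simp only [one_pow, inv_one, mul_one, cS_one] at h
  simp only [mul_inv_rev, mul_assoc] at h ⊢
  rw [h]
  have e : cS ((x ^ 3)⁻¹ * y ^ 6) * cS (x ^ 3 * (y ^ 6)⁻¹) = 1 := by
    rw [← cS_mul, ← cS_one]
    congr 1
    rw [mul_mul_mul_comm, inv_mul_cancel, mul_inv_cancel, mul_one]
  rw [mul_assoc (cS (x ^ 3 * (y ^ 6)⁻¹)),
    ← mul_assoc (cS ((x ^ 3)⁻¹ * y ^ 6)) (cS (x ^ 3 * (y ^ 6)⁻¹)), e, one_mul]

include hG in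
theorem Ft_actY (ξ υ t : S1) (p r : PP) : Ft G p (actY ξ υ t r) = Ft G p r * (cS t)⁻¹ := by
  unfold Ft
  simp only [actY, Matrix.cons_val_zero, Matrix.cons_val_one, Matrix.cons_val]
  have h := hG 1 1 ξ υ ((p 1)⁻¹ * r 1) ((p 2)⁻¹ * r 2) ((p 3)⁻¹ * r 3)
  simp only [one_pow, inv_one, mul_one, cS_one, one_mul] at h
  simp only [mul_inv_rev, mul_assoc] at h ⊢
  rw [h]
  simp only [mul_assoc, mul_inv_cancel_left]

theorem inv_neg_S3 (x : S3) : (-x)⁻¹ = -x⁻¹ := by
  rw [inv_eq_iff_mul_eq_one, S3_neg_mul, S3_mul_neg, S3_neg_neg, mul_inv_cancel]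

include hG in
theorem Ft_sgX (p r : PP) : Ft G (sg p) r = Ft G p r := by
  unfold Ft
  simp only [sg, Matrix.cons_val_zero, Matrix.cons_val_one, Matrix.cons_val, inv_neg_S3,
    S3_neg_mul]
  rw [G_neg1 G hG, G_neg2 G hG, S3_neg_neg]

include hG in
theorem Ft_sgY (p r : PP) : Ft G p (sg r) = Ft G p r := by
  unfold Ft
  simp only [sg, Matrix.cons_val_zero, Matrix.cons_val_one, Matrix.cons_val, S3_mul_neg]
  rw [G_neg1 G hG, G_neg2 G hG, S3_neg_neg]

theorem Ft_nu (p r : PP) : Ft G (nuX p) (nuY r) = Ft G p r * qj := by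
  unfold Ft
  simp only [nuX, nuY, Matrix.cons_val_zero, Matrix.cons_val_one, Matrix.cons_val, mul_inv_rev,
    inv_inv]
  have e : ∀ a b : S3, a⁻¹ * qi⁻¹ * (qi * b) = a⁻¹ * b := by intro a b; group
  rw [e, e]
  simp only [mul_assoc]

/-- the map `F` on `(S³)⁴ × (S³)⁴` with values in the pure unit quaternions -/
noncomputable def F0 (p r : PP) : S3 := Ft G p r * qi * (Ft G p r)⁻¹

theorem F0_sq (p r : PP) : F0 G p r * F0 G p r = -1 := by
  have : F0 G p r * F0 G p r = Ft G p r * (qi * qi) * (Ft G p r)⁻¹ := by unfold F0; group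
  rw [this, qi_qi, S3_mul_m1, S3_neg_mul, mul_inv_cancel]

include hG in
theorem F0_aX (k : (S1 × S1) × Bool) (p r : PP) : F0 G (aX k p) r = F0 G p r := by
  have h : Ft G (aX k p) r = Ft G p r := by
    unfold aX
    rw [Ft_actX G hG]
    cases k.2
    · simp [sgb]
    · simp [sgb, Ft_sgX G hG]
  unfold F0
  rw [h]

include hG in
theorem F0_aY (k : (S1 × S1 × S1) × Bool) (p r : PP) : F0 G p (aY k r) = F0 G p r := by
  have h : Ft G p (aY k r) = Ft G p r * (cS k.1.2.2)⁻¹ := by
    unfold aY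
    rw [Ft_actY G hG]
    cases k.2
    · simp [sgb]
    · simp [sgb, Ft_sgY G hG]
  unfold F0
  rw [h]
  have e : (cS k.1.2.2)⁻¹ * qi = qi * (cS k.1.2.2)⁻¹ := by
    have h1 : qi = cS ⟨Complex.I, by simp⟩ := rfl
    rw [h1, ← cS_inv, ← cS_mul, ← cS_mul, mul_comm]
  rw [mul_inv_rev, inv_inv, mul_assoc (Ft G p r), e]
  simp [mul_assoc]

theorem qj_qi : qj * qi = -(qi * qj) := by
  apply co_inj
  rw [co_neg, co_mul, co_mul, co_qi, co_qj]
  ext <;> simp

theorem F0_nu (p r : PP) : F0 G (nuX p) (nuY r) = -F0 G p r := by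
  unfold F0
  rw [Ft_nu, mul_assoc (Ft G p r), qj_qi, mul_inv_rev]
  rw [S3_mul_neg, S3_neg_mul]
  congr 1
  group

end F

/-- **The 2-sphere is not multiplicative.** -/
theorem main : ∃ (X Y : Type) (_ : MetricSpace X) (_ : MetricSpace Y) (_ : CompactSpace X)
    (_ : CompactSpace Y) (νX : C(X, X)) (νY : C(Y, Y)),
    (∀ x, νX (νX x) = x) ∧ (∀ x, νX x ≠ x) ∧ (∀ y, νY (νY y) = y) ∧ (∀ y, νY y ≠ y) ∧
    (∃ F : C(X × Y, sphere (0 : EuclideanSpace ℝ (Fin 3)) 1),
      ∀ x y, F (νX x, νY y) = -F (x, y)) ∧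
    (¬ ∃ f : C(X, sphere (0 : EuclideanSpace ℝ (Fin 3)) 1), ∀ x, f (νX x) = -f x) ∧
    (¬ ∃ f : C(Y, sphere (0 : EuclideanSpace ℝ (Fin 3)) 1), ∀ y, f (νY y) = -f y) := by
  obtain ⟨G, hG⟩ := stmtG
  let mX : MetricSpace XX := TopologicalSpace.metrizableSpaceMetric XX
  let mY : MetricSpace YY := TopologicalSpace.metrizableSpaceMetric YY
  refine ⟨XX, YY, mX, mY, inferInstance, inferInstance, invX, invY, invX_invX, invX_ne,
    invY_invY, invY_ne, ?_, ?_, ?_⟩
  · let F1 : XX → YY → S3 := fun x y => Quotient.liftOn₂ x y (F0 G) (by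
      rintro p r p' r' ⟨k, rfl⟩ ⟨l, rfl⟩
      rw [F0_aX G hG, F0_aY G hG])
    have hF1 : ∀ p r, F1 (Quotient.mk sX p) (Quotient.mk sY r) = F0 G p r := fun _ _ => rfl
    have hsq : ∀ z : XX × YY, F1 z.1 z.2 * F1 z.1 z.2 = -1 := by
      rintro ⟨x, y⟩
      induction x using Quotient.inductionOn with
      | h p =>
        induction y using Quotient.inductionOn with
        | h r => exact F0_sq G p r
    have hc : Continuous fun z : XX × YY => F1 z.1 z.2 := by
      rw [(oX.prodMap oY).isQuotientMap.continuous_iff]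
      have h1 := continuous_Ft G
      have h2 : Continuous fun q : PP × PP => F0 G q.1 q.2 := by
        unfold F0
        exact (h1.mul continuous_const).mul h1.inv
      exact h2
    refine ⟨⟨fun z => toSph (F1 z.1 z.2) (hsq z), continuous_toSph hc hsq⟩, ?_⟩
    intro x y
    induction x using Quotient.inductionOn with
    | h p =>
      induction y using Quotient.inductionOn with
      | h r =>
        show toSph (F0 G (nuX p) (nuY r)) (F0_sq G _ _) = -toSph (F0 G p r) (F0_sq G _ _)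
        have h1 : -F0 G p r * -F0 G p r = -1 := by
          rw [S3_neg_mul, S3_mul_neg, S3_neg_neg, F0_sq]
        rw [← toSph_neg (F0_sq G p r) h1]
        congr 1
        exact F0_nu G p r
  · rintro ⟨f, hf⟩
    let g : C(PP, S3) := ⟨fun p => fromSph (f (Quotient.mk sX p)),
      continuous_fromSph.comp (f.continuous.comp continuous_quotient_mk')⟩
    refine Pool.Agent.Helper90.Lift.noX g (fun p => fromSph_sq _) ?_ ?_
    · intro x y p
      show fromSph (f (Quotient.mk sX (actX x y p))) = fromSph (f (Quotient.mk sX p))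
      congr 2
      refine Quotient.sound (sX.symm ⟨((x, y), false), ?_⟩)
      simp [aX, sgb]
    · intro p
      show fromSph (f (Quotient.mk sX (nuX p))) = -fromSph (f (Quotient.mk sX p))
      rw [← fromSph_neg, ← hf]
      rfl
  · rintro ⟨f, hf⟩
    let g : C(PP, S3) := ⟨fun p => fromSph (f (Quotient.mk sY p)),
      continuous_fromSph.comp (f.continuous.comp continuous_quotient_mk')⟩
    refine Pool.Agent.Helper90.Lift.noY g (fun p => fromSph_sq _) ?_ ?_
    · intro ξ υ t p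
      show fromSph (f (Quotient.mk sY (actY ξ υ t p))) = fromSph (f (Quotient.mk sY p))
      congr 2
      refine Quotient.sound (sY.symm ⟨((ξ, υ, t), false), ?_⟩)
      simp [aY, sgb]
    · intro p
      show fromSph (f (Quotient.mk sY (nuY p))) = -fromSph (f (Quotient.mk sY p))
      rw [← fromSph_neg, ← hf]
      rfl

end Pool.Agent.Helper5.Z2S
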