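import Pool.Agent.Helper5.Z2S.Defs
import Pool.Agent.Helper5.Z2S.SFinal

/-!
# The final form of the disproof
-/

namespace Pool.Agent.Helper5.Z2S

theorem notMultiplicative : ∃ (X Y : Type) (_ : MetricSpace X) (_ : MetricSpace Y) (μ : X → X)
    (ν : Y → Y), CompactSpace X ∧ CompactSpace Y ∧ IsFreeInvolution μ ∧ IsFreeInvolution ν ∧
      MapsTo (Prod.map μ ν) antipode ∧ ¬ MapsTo μ antipode ∧ ¬ MapsTo ν antipode := by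
  obtain ⟨X, Y, mX, mY, cX, cY, μ, ν, h1, h2, h3, h4, ⟨F, hF⟩, hX, hY⟩ := main
  refine ⟨X, Y, mX, mY, μ, ν, cX, cY, ⟨μ.continuous, h1, h2⟩, ⟨ν.continuous, h3, h4⟩, ?_, ?_, ?_⟩
  · exact ⟨F, F.continuous, fun p => hF p.1 p.2⟩
  · rintro ⟨f, hf, hfe⟩
    exact hX ⟨⟨f, hf⟩, hfe⟩
  · rintro ⟨f, hf, hfe⟩
    exact hY ⟨⟨f, hf⟩, hfe⟩

end Pool.Agent.Helper5.Z2S
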